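import Mathlib

/-!
Project NZ (helper31): a lower bound for the mean square deviation from `m` of a function which is
small on a set (Cauchy-Schwarz).
-/

set_option autoImplicit false
open MeasureTheory Filter Topology
open scoped ContDiff ENNReal

namespace Pool.Agent.P8H31.NZ

noncomputable section

/-- **The abstract inequality.** -/
theorem det {X : Type*} [MeasurableSpace X] (μ : Measure X) [IsFiniteMeasure μ] {m : X → ℝ}
    {F : X → ℂ} (hm : AEStronglyMeasurable m μ) {M : ℝ} (M0 : 0 ≤ M) (hM : ∀ᵐ x ∂μ, |m x| ≤ M)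
    (hF : MemLp F 2 μ) {Z G : Set X} (mZ : MeasurableSet Z) (mG : MeasurableSet G)
    {κ : ℝ} (κ0 : 0 ≤ κ) (hκ : ∀ x ∈ Z, x ∉ G → ‖F x‖ ≤ κ) {t : ℝ} (t0 : 0 < t) :
    (∫ x, m x ^ 2 ∂μ) * (∫ x in Z, m x ^ 2 ∂μ) ≤
      ((∫ x, m x ^ 2 ∂μ) - ∫ x in Z, m x ^ 2 ∂μ) * (∫ x, ‖F x - (m x : ℂ)‖ ^ 2 ∂μ) +
      (∫ x, m x ^ 2 ∂μ) * (2 * M * κ * μ.real Set.univ + M ^ 2 * μ.real G) +
      2 * (∫ x, m x ^ 2 ∂μ) * (|(∫ x, m x * (F x).re ∂μ) - ∫ x, m x ^ 2 ∂μ| +
        M * κ * μ.real Set.univ + M ^ 2 / (2 * t) * μ.real G + t / 2 * ∫ x, ‖F x‖ ^ 2 ∂μ) := by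
  -- integrability
  have lm : MemLp m 2 μ := MemLp.of_bound hm M (hM.mono fun x hx => by
    rw [Real.norm_eq_abs]; exact hx)
  have lmc : MemLp (fun x => (m x : ℂ)) 2 μ := by
    refine MemLp.of_bound (Complex.continuous_ofReal.comp_aestronglyMeasurable hm) M
      (hM.mono fun x hx => ?_)
    rw [Complex.norm_real, Real.norm_eq_abs]; exact hx
  have lr : MemLp (fun x => (F x).re) 2 μ := hF.re
  have ld : MemLp (fun x => F x - (m x : ℂ)) 2 μ := hF.sub lmc
  have im2 : Integrable (fun x => m x ^ 2) μ := lm.integrable_sq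
  have iF2 : Integrable (fun x => ‖F x‖ ^ 2) μ := hF.norm.integrable_sq
  have id2 : Integrable (fun x => ‖F x - (m x : ℂ)‖ ^ 2) μ := ld.norm.integrable_sq
  have imr : Integrable (fun x => m x * (F x).re) μ := lm.integrable_mul lr
  have iG : Integrable (G.indicator fun _ => (1 : ℝ)) μ := (integrable_const 1).indicator mG
  obtain ⟨A, hA⟩ : ∃ A : ℝ, A = ∫ x, m x ^ 2 ∂μ := ⟨_, rfl⟩
  obtain ⟨V, hV⟩ : ∃ V : ℝ, V = ∫ x in Z, m x ^ 2 ∂μ := ⟨_, rfl⟩
  obtain ⟨v, hv⟩ : ∃ v : ℝ, v = ∫ x, ‖F x - (m x : ℂ)‖ ^ 2 ∂μ := ⟨_, rfl⟩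
  obtain ⟨P, hP⟩ : ∃ P : ℝ, P = ∫ x in Z, ‖F x - (m x : ℂ)‖ ^ 2 ∂μ := ⟨_, rfl⟩
  obtain ⟨W, hW⟩ : ∃ W : ℝ, W = ∫ x in Zᶜ, ‖F x - (m x : ℂ)‖ ^ 2 ∂μ := ⟨_, rfl⟩
  obtain ⟨R, hR⟩ : ∃ R : ℝ, R = ∫ x in Zᶜ, m x * ((F x).re - m x) ∂μ := ⟨_, rfl⟩
  obtain ⟨Y, hY⟩ : ∃ Y : ℝ, Y = ∫ x in Z, m x * (F x).re ∂μ := ⟨_, rfl⟩
  obtain ⟨J, hJ⟩ : ∃ J : ℝ, J = ∫ x, m x * (F x).re ∂μ := ⟨_, rfl⟩
  obtain ⟨CF, hCF⟩ : ∃ CF : ℝ, CF = ∫ x, ‖F x‖ ^ 2 ∂μ := ⟨_, rfl⟩
  obtain ⟨U, hU⟩ : ∃ U : ℝ, U = μ.real Set.univ := ⟨_, rfl⟩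
  obtain ⟨g, hg⟩ : ∃ g : ℝ, g = μ.real G := ⟨_, rfl⟩
  rw [← hA, ← hV, ← hv, ← hJ, ← hCF, ← hU, ← hg]
  have U0 : 0 ≤ U := by rw [hU]; exact measureReal_nonneg
  have g0 : 0 ≤ g := by rw [hg]; exact measureReal_nonneg
  have CF0 : 0 ≤ CF := by rw [hCF]; exact integral_nonneg fun x => sq_nonneg _
  have V0 : 0 ≤ V := by rw [hV]; exact integral_nonneg fun x => sq_nonneg _
  have W0 : 0 ≤ W := by rw [hW]; exact integral_nonneg fun x => sq_nonneg _
  have hAV : A - V = ∫ x in Zᶜ, m x ^ 2 ∂μ := by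
    rw [hA, hV, ← integral_add_compl mZ im2]; ring
  have AV0 : 0 ≤ A - V := by rw [hAV]; exact integral_nonneg fun x => sq_nonneg _
  have hvP : v = P + W := by rw [hv, hP, hW, integral_add_compl mZ id2]
  have zU : μ.real Z ≤ U := by rw [hU]; exact measureReal_mono (Set.subset_univ Z)
  have IG : ∫ x in Z, G.indicator (fun _ => (1 : ℝ)) x ∂μ ≤ g := by
    refine (setIntegral_le_integral iG (ae_of_all _ fun x => ?_)).trans ?_
    · show 0 ≤ G.indicator (fun _ => (1 : ℝ)) x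
      exact Set.indicator_nonneg (fun _ _ => zero_le_one) x
    · rw [integral_indicator mG, setIntegral_const, smul_eq_mul, mul_one, hg]
  have IG0 : 0 ≤ ∫ x in Z, G.indicator (fun _ => (1 : ℝ)) x ∂μ :=
    integral_nonneg fun x => Set.indicator_nonneg (fun _ _ => zero_le_one) x
  -- the deviation on `Z`
  have b1 : V - 2 * M * κ * U - M ^ 2 * g ≤ P := by
    have i1 : Integrable (fun x => m x ^ 2 - 2 * M * κ) μ := im2.sub (integrable_const _)
    have h1 : ∫ x in Z, (m x ^ 2 - 2 * M * κ - M ^ 2 * G.indicator (fun _ => (1 : ℝ)) x) ∂μ ≤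
        P := by
      rw [hP]
      refine setIntegral_mono_on_ae (i1.sub (iG.const_mul _)).integrableOn id2.integrableOn mZ ?_
      filter_upwards [hM] with x hx hxZ
      by_cases hG : x ∈ G
      · rw [Set.indicator_of_mem hG]
        have h2 : m x ^ 2 ≤ M ^ 2 := by rw [← sq_abs]; exact pow_le_pow_left₀ (abs_nonneg _) hx 2
        have h3 : 0 ≤ 2 * M * κ := by positivity
        have h4 : 0 ≤ ‖F x - (m x : ℂ)‖ ^ 2 := sq_nonneg _
        linarith
      · rw [Set.indicator_of_notMem hG]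
        have h2 := hκ x hxZ hG
        have h3 : |m x| - ‖F x‖ ≤ ‖F x - (m x : ℂ)‖ := by
          have := norm_sub_norm_le (m x : ℂ) (F x)
          rw [Complex.norm_real, Real.norm_eq_abs, norm_sub_rev] at this
          exact this
        have h4 : (|m x| - ‖F x‖) ^ 2 ≤ ‖F x - (m x : ℂ)‖ ^ 2 := by
          have h5 : -‖F x - (m x : ℂ)‖ ≤ |m x| - ‖F x‖ := by
            have := norm_sub_norm_le (F x) (m x : ℂ)
            rw [Complex.norm_real, Real.norm_eq_abs] at this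
            linarith
          exact sq_le_sq' h5 h3
        have h6 : |m x| * ‖F x‖ ≤ M * κ := mul_le_mul hx h2 (norm_nonneg _) M0
        have h7 : (|m x| - ‖F x‖) ^ 2 = m x ^ 2 - 2 * (|m x| * ‖F x‖) + ‖F x‖ ^ 2 := by
          rw [← sq_abs (m x)]; ring
        have h8 := sq_nonneg ‖F x‖
        simp only [mul_zero, sub_zero]
        linarith
    have h2 : ∫ x in Z, (m x ^ 2 - 2 * M * κ - M ^ 2 * G.indicator (fun _ => (1 : ℝ)) x) ∂μ =
        V - μ.real Z * (2 * M * κ) -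
          M ^ 2 * ∫ x in Z, G.indicator (fun _ => (1 : ℝ)) x ∂μ := by
      rw [integral_sub i1.integrableOn (iG.const_mul _).integrableOn,
        integral_sub im2.integrableOn (integrable_const _), setIntegral_const, smul_eq_mul,
        integral_const_mul, hV]
    rw [h2] at h1
    have h3 : μ.real Z * (2 * M * κ) ≤ U * (2 * M * κ) :=
      mul_le_mul_of_nonneg_right zU (by positivity)
    have h4 := mul_le_mul_of_nonneg_left IG (sq_nonneg M)
    linarith
  -- the mean on `Z`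
  have b2 : |Y| ≤ M * κ * U + M ^ 2 / (2 * t) * g + t / 2 * CF := by
    have i2 : Integrable (fun x => M * κ + M ^ 2 / (2 * t) * G.indicator (fun _ => (1 : ℝ)) x) μ :=
      (integrable_const _).add (iG.const_mul _)
    have i3 : Integrable (fun x => M * κ + M ^ 2 / (2 * t) * G.indicator (fun _ => (1 : ℝ)) x +
        t / 2 * ‖F x‖ ^ 2) μ := i2.add (iF2.const_mul _)
    have h1 : |Y| ≤ ∫ x in Z, (M * κ + M ^ 2 / (2 * t) * G.indicator (fun _ => (1 : ℝ)) x +
        t / 2 * ‖F x‖ ^ 2) ∂μ := by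
      rw [hY]
      refine (abs_integral_le_integral_abs).trans ?_
      refine setIntegral_mono_on_ae imr.abs.integrableOn i3.integrableOn mZ ?_
      filter_upwards [hM] with x hx hxZ
      have h2 : |m x * (F x).re| ≤ |m x| * ‖F x‖ := by
        rw [abs_mul]
        exact mul_le_mul_of_nonneg_left (Complex.abs_re_le_norm _) (abs_nonneg _)
      refine h2.trans ?_
      have h8 : 0 ≤ t / 2 * ‖F x‖ ^ 2 := by positivity
      by_cases hG : x ∈ G
      · rw [Set.indicator_of_mem hG]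
        have h3 : |m x| * ‖F x‖ ≤ M * ‖F x‖ := mul_le_mul_of_nonneg_right hx (norm_nonneg _)
        have h4 : M * ‖F x‖ ≤ M ^ 2 / (2 * t) * 1 + t / 2 * ‖F x‖ ^ 2 := by
          have h5 : 0 ≤ (M - t * ‖F x‖) ^ 2 / (2 * t) := by positivity
          have h6 : (M - t * ‖F x‖) ^ 2 / (2 * t) = M ^ 2 / (2 * t) * 1 + t / 2 * ‖F x‖ ^ 2 -
              M * ‖F x‖ := by field_simp; ring
          linarith
        have h5 : 0 ≤ M * κ := by positivity
        linarith
      · rw [Set.indicator_of_notMem hG]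
        have h6 : |m x| * ‖F x‖ ≤ M * κ := mul_le_mul hx (hκ x hxZ hG) (norm_nonneg _) M0
        linarith
    have h2 : ∫ x in Z, (M * κ + M ^ 2 / (2 * t) * G.indicator (fun _ => (1 : ℝ)) x +
        t / 2 * ‖F x‖ ^ 2) ∂μ = μ.real Z * (M * κ) + M ^ 2 / (2 * t) *
        (∫ x in Z, G.indicator (fun _ => (1 : ℝ)) x ∂μ) + t / 2 * ∫ x in Z, ‖F x‖ ^ 2 ∂μ := by
      rw [integral_add i2.integrableOn (iF2.const_mul _).integrableOn,
        integral_add (integrable_const _) (iG.const_mul _).integrableOn, setIntegral_const,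
        smul_eq_mul, integral_const_mul, integral_const_mul]
    rw [h2] at h1
    have h3 : μ.real Z * (M * κ) ≤ U * (M * κ) :=
      mul_le_mul_of_nonneg_right zU (by positivity)
    have h4 := mul_le_mul_of_nonneg_left IG (show 0 ≤ M ^ 2 / (2 * t) by positivity)
    have h5 : ∫ x in Z, ‖F x‖ ^ 2 ∂μ ≤ CF := by
      rw [hCF]
      exact setIntegral_le_integral iF2 (ae_of_all _ fun x => sq_nonneg _)
    have h6 := mul_le_mul_of_nonneg_left h5 (show 0 ≤ t / 2 by positivity)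
    linarith
  -- the mean outside `Z`
  have hR2 : R = (J - A) - (Y - V) := by
    have h1 : R = (∫ x in Zᶜ, m x * (F x).re ∂μ) - ∫ x in Zᶜ, m x ^ 2 ∂μ := by
      rw [hR, ← integral_sub imr.integrableOn im2.integrableOn]
      congr 1; funext x; ring
    have h2 : J = Y + ∫ x in Zᶜ, m x * (F x).re ∂μ := by
      rw [hJ, hY, integral_add_compl mZ imr]
    rw [h1, ← hAV]; linarith
  have b3 : R ^ 2 ≤ (A - V) * W := by
    have h1 : ∀ c : ℝ, 0 ≤ (A - V) * (c * c) + (-2 * R) * c + W := by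
      intro c
      have i4 : Integrable (fun x => m x * ((F x).re - m x)) μ := by
        have := imr.sub im2
        refine this.congr (ae_of_all _ fun x => ?_)
        simp only [Pi.sub_apply]; ring
      have h2 : (A - V) * (c * c) + (-2 * R) * c + W =
          ∫ x in Zᶜ, ((c * c) * m x ^ 2 + (-2 * c) * (m x * ((F x).re - m x)) +
            ‖F x - (m x : ℂ)‖ ^ 2) ∂μ := by
        have i5 : Integrable (fun x => (c * c) * m x ^ 2 +
            (-2 * c) * (m x * ((F x).re - m x))) μ := (im2.const_mul _).add (i4.const_mul _)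
        rw [integral_add i5.integrableOn id2.integrableOn,
          integral_add (im2.const_mul _).integrableOn (i4.const_mul _).integrableOn,
          integral_const_mul, integral_const_mul, ← hAV, ← hR, ← hW]
        ring
      rw [h2]
      refine integral_nonneg fun x => ?_
      show 0 ≤ (c * c) * m x ^ 2 + (-2 * c) * (m x * ((F x).re - m x)) + ‖F x - (m x : ℂ)‖ ^ 2
      have h3 : ((F x).re - m x) ^ 2 ≤ ‖F x - (m x : ℂ)‖ ^ 2 := by
        have := Complex.abs_re_le_norm (F x - (m x : ℂ))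
        rw [Complex.sub_re, Complex.ofReal_re] at this
        rw [← sq_abs ((F x).re - m x)]
        exact pow_le_pow_left₀ (abs_nonneg _) this 2
      nlinarith [sq_nonneg (((F x).re - m x) - c * m x)]
    have h2 := discrim_le_zero h1
    unfold discrim at h2
    linarith
  -- conclusion
  obtain ⟨e1, he1⟩ : ∃ e1 : ℝ, e1 = 2 * M * κ * U + M ^ 2 * g := ⟨_, rfl⟩
  obtain ⟨e2, he2⟩ : ∃ e2 : ℝ, e2 = |J - A| + M * κ * U + M ^ 2 / (2 * t) * g + t / 2 * CF :=
    ⟨_, rfl⟩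
  have e10 : 0 ≤ e1 := by rw [he1]; positivity
  have e20 : 0 ≤ e2 := by rw [he2]; positivity
  rw [← he1, ← he2, hvP]
  have c1 : V - e2 ≤ R := by
    rw [hR2, he2]
    have h1 := neg_abs_le (J - A)
    have h2 := le_abs_self Y
    linarith
  have c2 : V ^ 2 - 2 * V * e2 ≤ R ^ 2 := by
    by_cases h : e2 ≤ V
    · have h1 : (V - e2) ^ 2 ≤ R ^ 2 := pow_le_pow_left₀ (by linarith) c1 2
      nlinarith [sq_nonneg e2]
    · have h1 : V < e2 := not_le.1 h
      have h2 : V ^ 2 - 2 * V * e2 ≤ 0 := by nlinarith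
      exact h2.trans (sq_nonneg R)
  have c3 : (A - V) * (V - e1) ≤ (A - V) * P :=
    mul_le_mul_of_nonneg_left (by rw [he1]; linarith) AV0
  have c4 : (A - V) * e1 ≤ A * e1 := mul_le_mul_of_nonneg_right (by linarith) e10
  have c5 : V * e2 ≤ A * e2 := mul_le_mul_of_nonneg_right (by linarith) e20
  nlinarith

end

end Pool.Agent.P8H31.NZ
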