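import Pool.Agent.TH294.RG.Jc7

/-!
Project NZ (helper31): the averages over `k` of `(-1)^k W_k W_{-k}` are close to `m` when the fourth
moment is close to its Gaussian value.
-/

set_option autoImplicit false
open MeasureTheory Filter Topology Complex ProbabilityTheory
open scoped ContDiff

namespace Pool.Agent.P8H31.NZ

open Pool.Agent.W745.RW Pool.Agent.TH294.RS Pool.Agent.TH294.RG

noncomputable section

variable {m : ℂ → ℝ} {ν : Kernel ℂ ℝ}

/-- the average over `1 ≤ k ≤ N` of `(-1)^k W_k W_{-k}` -/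
def FF (a : ℂ → ℝ) (h : ℕ → ℝ) (u : ℕ → ℂ → ℝ) (N : ℕ) (n : ℕ) (z : ℂ) : ℂ :=
  FA (ww a h (fun n z => (u n z : ℂ))) 0 0 ((Finset.Icc 1 N).map Nat.castEmbedding)
    (fun k => (N : ℂ)⁻¹ * sg k) n z

lemma sum_one {N : ℕ} (hN : 0 < N) :
    ∑ k ∈ (Finset.Icc 1 N).map Nat.castEmbedding, sg k * ((N : ℂ)⁻¹ * sg k) = 1 := by
  simp only [Finset.sum_map, Nat.castEmbedding_apply]
  have e2 : ∀ k : ℕ, sg (k : ℤ) * ((N : ℂ)⁻¹ * sg (k : ℤ)) = (N : ℂ)⁻¹ := fun k => by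
    rw [mul_left_comm, sg_sq, mul_one]
  simp only [e2]
  rw [Finset.sum_const, Nat.card_Icc, Nat.add_sub_cancel, nsmul_eq_mul]
  exact mul_inv_cancel₀ (by exact_mod_cast hN.ne')

lemma FF_sm [IsMarkovKernel ν] {B : Set ℂ} {a : ℂ → ℝ} {h : ℕ → ℝ} {u : ℕ → ℂ → ℝ}
    (hB : IsOpen B) (H : RawG B a h u (MM m ea ν)) (N n : ℕ) :
    ContinuousOn (FF a h u N n) B := by
  unfold FF FA
  have c := fun k => (H.lb2 hB k).co n
  exact continuousOn_finsetSum _ fun q _ => continuousOn_const.mul ((c _).mul (c _))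

/-- the norm of the average is at most the maximum of the `‖W_k‖²` -/
lemma FF_le {a : ℂ → ℝ} {h : ℕ → ℝ} {u : ℕ → ℂ → ℝ} {N : ℕ} (hN : 0 < N) {n : ℕ} {z : ℂ} {η : ℝ}
    (hη : 0 ≤ η) (hk : ∀ k ∈ Finset.Icc 1 N, ‖wn a h (fun n z => (u n z : ℂ)) k n z‖ ≤ η) :
    ‖FF a h u N n z‖ ≤ η ^ 2 := by
  have hu : ∀ n z, (starRingEnd ℂ) ((u n z : ℂ)) = (u n z : ℂ) := fun n z => conj_ofReal _
  unfold FF FA
  rw [Finset.sum_map]
  refine (norm_sum_le _ _).trans ?_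
  have e1 : ∀ k ∈ Finset.Icc 1 N, ‖(N : ℂ)⁻¹ * sg ((Nat.castEmbedding : ℕ ↪ ℤ) k) *
      (ww a h (fun n z => (u n z : ℂ)) (0 + (Nat.castEmbedding : ℕ ↪ ℤ) k) n z *
        ww a h (fun n z => (u n z : ℂ)) (0 - (Nat.castEmbedding : ℕ ↪ ℤ) k) n z)‖ ≤
      (N : ℝ)⁻¹ * η ^ 2 := by
    intro k hkN
    rw [Nat.castEmbedding_apply, zero_add, zero_sub, ww_nat, ww_neg hu]
    rw [norm_mul, norm_mul, norm_mul, norm_mul, sg_norm, norm_inv, Complex.norm_natCast, norm_pow,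
      norm_neg, norm_one, one_pow, one_mul, mul_one, RCLike.norm_conj]
    have h1 := hk k hkN
    refine mul_le_mul_of_nonneg_left ?_ (by positivity)
    rw [sq]
    exact mul_le_mul h1 h1 (norm_nonneg _) hη
  refine (Finset.sum_le_sum e1).trans (le_of_eq ?_)
  rw [Finset.sum_const, Nat.card_Icc, Nat.add_sub_cancel, nsmul_eq_mul, ← mul_assoc,
    mul_inv_cancel₀ (by exact_mod_cast hN.ne'), one_mul]

/-- **The averages are close to `m`.** -/
theorem mean_var [IsMarkovKernel ν] {Ω : Set ℂ}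
    (hm : ∀ K : Set ℂ, IsCompact K → K ⊆ Ω → MemLp m 2 (volume.restrict K))
    (hms : ContDiffOn ℝ ∞ m Ω)
    (hp : ∀ᵐ z ∂(volume.restrict Ω), par ea (ν z) = 0) {a : ℂ → ℝ} {h : ℕ → ℝ} {u : ℕ → ℂ → ℝ}
    (H : RawG Ω a h u (MM m ea ν)) {K : Set ℂ} (hK : IsCompact K) (hKΩ : K ⊆ Ω)
    {φ : ℂ → ℝ} (hφ : TF (interior K) φ) (hφ0 : ∀ z, 0 ≤ φ z) {T : ℝ}
    (hT : ∀ᶠ n in atTop, ∫ z in K, u n z ^ 4 ≤ T) {ε : ℝ} (hε : 0 < ε) :
    ∃ N : ℕ, 0 < N ∧
      Tendsto (fun n => ∫ z, ((φ z * m z : ℝ) : ℂ) * FF a h u N n z) atTop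
        (𝓝 ((∫ z, φ z * (m z * m z) : ℝ) : ℂ)) ∧
      (∀ᶠ n in atTop, ∫ z, φ z * ‖FF a h u N n z - (m z : ℂ)‖ ^ 2 ≤
        2 / 3 * ((∫ z, φ z * u n z ^ 4) - 3 * ∫ z, φ z * (m z * m z)) + ε) ∧
      ∃ C : ℝ, ∀ᶠ n in atTop, ∫ z, φ z * ‖FF a h u N n z‖ ^ 2 ≤ C := by
  have hB : IsOpen (interior K) := isOpen_interior
  have hBΩ : interior K ⊆ Ω := interior_subset.trans hKΩ
  have hmB : ∀ K' : Set ℂ, IsCompact K' → K' ⊆ interior K → MemLp m 2 (volume.restrict K') :=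
    fun K' hK' hKB => hm K' hK' (hKB.trans hBΩ)
  have hpB : ∀ᵐ z ∂(volume.restrict (interior K)), par ea (ν z) = 0 :=
    ae_restrict_of_ae_restrict_of_subset hBΩ hp
  have cu : ∀ n, ContinuousOn (fun z => u n z ^ 4) K := fun n =>
    ((H.sm n).continuousOn.mono hKΩ).pow 4
  have T0 : ∀ n, 0 ≤ ∫ z in K, u n z ^ 4 := fun n => integral_nonneg fun z => by positivity
  have Tn : 0 ≤ T := by
    obtain ⟨n, hn⟩ := hT.exists
    exact (T0 n).trans hn
  obtain ⟨Mφ, hMφ⟩ := hφ.2.1.exists_bound_of_continuousOn hφ.1.continuous.continuousOn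
  have hφM : ∀ z, φ z ≤ |Mφ| := by
    intro z
    by_cases hz : z ∈ tsupport φ
    · exact (le_abs_self _).trans ((hMφ z hz).trans (le_abs_self _))
    · rw [image_eq_zero_of_notMem_tsupport hz]; exact abs_nonneg _
  obtain ⟨A, hAd⟩ : ∃ A : ℝ, A = ∫ z, φ z * (m z * m z) := ⟨_, rfl⟩
  have hA2 : ∫ z, φ z * m z ^ 2 = A := by
    rw [hAd]; congr 1; funext z; ring
  have A0 : 0 ≤ A := by
    rw [hAd]; exact integral_nonneg fun z => mul_nonneg (hφ0 z) (mul_self_nonneg _)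
  have H1 := H.cmp hBΩ tendsto_id
  have H1' : RawG (interior K) a h u (MM m ea ν) := H1
  have A' := H1'.as hB (fun k => ((MM_ml ea_meas ea_norm (B := interior K) (ν := ν) hmB) k))
    (fun z => by rw [MM_0, conj_ofReal])
    (fun K' hK' hKB => ⟨T, hT.mono fun n hn => by
      have : ∫ z in K', u n z ^ 4 ≤ ∫ z in K, u n z ^ 4 := by
        refine setIntegral_mono_set ((cu _).integrableOn_compact hK)
          (ae_of_all _ fun z => by positivity) ?_
        exact (hKB.trans interior_subset).eventuallyLE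
      linarith⟩)
  obtain ⟨w, hw⟩ : ∃ w : ℤ → ℕ → ℂ → ℂ, w = ww a h (fun n z => (u n z : ℂ)) := ⟨_, rfl⟩
  rw [← hw] at A'
  have cw : ∀ q n, ContinuousOn (w q n) (interior K) := fun q n => (A'.bd q).co n
  have cm : ContinuousOn m (interior K) := hms.continuousOn.mono hBΩ
  have hφ2 : TF (interior K) (fun z => φ z * m z) := TF.mulc hB hφ (hms.mono hBΩ)
  have EC : ∀ᶠ n in atTop, (∫ z, φ z * u n z ^ 4) - 3 * A ≤ |Mφ| * T := by
    refine hT.mono fun n hn => ?_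
    have i4 : Integrable (fun z => φ z * u n z ^ 4) :=
      Pool.Agent.W311.RW.int_mul hB hφ (((H.sm n).continuousOn.mono hBΩ).pow 4)
    have e3 : ∫ z, φ z * u n z ^ 4 ≤ |Mφ| * ∫ z in K, u n z ^ 4 := by
      rw [← integral_const_mul, ← integral_indicator hK.measurableSet]
      have i3 : IntegrableOn (fun z => |Mφ| * u n z ^ 4) K :=
        (continuousOn_const.mul (cu n)).integrableOn_compact hK
      refine integral_mono i4 ((integrable_indicator_iff hK.measurableSet).2 i3) fun z => ?_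
      by_cases hz : z ∈ K
      · rw [Set.indicator_of_mem hz]
        exact mul_le_mul_of_nonneg_right (hφM z) (by positivity)
      · rw [Set.indicator_of_notMem hz]
        show φ z * _ ≤ 0
        rw [TF.zero hφ (fun h => hz (interior_subset h)), zero_mul]
    have := mul_le_mul_of_nonneg_left hn (abs_nonneg Mφ)
    linarith
  have MT0 : 0 ≤ |Mφ| * T := mul_nonneg (abs_nonneg _) Tn
  -- the choice of `N`
  have l1 := (Sw_lim (ν := ν) hB hmB hpB hφ (τ := sg) sg_norm).eventually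
    (gt_mem_nhds (show (0 : ℝ) < ε / 8 by linarith))
  have l2 := (av_sg.mul_const (1 / 3 * (|Mφ| * T))).eventually
    (gt_mem_nhds (show 0 * (1 / 3 * (|Mφ| * T)) < ε / 8 by linarith))
  obtain ⟨N, ⟨hN1, hN2⟩, hN⟩ := ((l1.and l2).and (eventually_gt_atTop 0)).exists
  refine ⟨N, hN, ?_⟩
  obtain ⟨s, hs⟩ : ∃ s : Finset ℤ, s = (Finset.Icc 1 N).map Nat.castEmbedding := ⟨_, rfl⟩
  obtain ⟨α, hα⟩ : ∃ α : ℤ → ℂ, α = fun k => (N : ℂ)⁻¹ * sg k := ⟨_, rfl⟩
  have s1 : ∑ k ∈ s, sg k * α k = 1 := by rw [hs, hα]; exact sum_one hN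
  have hFF : ∀ n z, FF a h u N n z = FA w 0 0 s α n z := by
    intro n z; rw [hw, hs, hα]; rfl
  have cF : ∀ n, ContinuousOn (FA w 0 0 s α n) (interior K) := fun n => by
    unfold FA
    exact continuousOn_finsetSum _ fun q _ => continuousOn_const.mul ((cw _ n).mul (cw _ n))
  have mean : Tendsto (fun n => ∫ z, (((φ z * m z : ℝ)) : ℂ) * FA w 0 0 s α n z) atTop
      (𝓝 (A : ℂ)) := by
    have h1 : ∀ k : ℤ, Tendsto (fun n => ∫ z, (((φ z * m z : ℝ)) : ℂ) *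
        (w (0 + k) n z * w (0 - k) n z)) atTop (𝓝 (sg k * (A : ℂ))) := by
      intro k
      have h2 := ((A'.two hB (0 + k) (0 - k)).lim _ hφ2)
      refine h2.trans_eq ?_
      congr 1
      have e3 : ∀ z, (((φ z * m z : ℝ)) : ℂ) * cc (MM m ea ν)
          (0 + k) (0 - k) z = sg k * ((φ z * (m z * m z) : ℝ) : ℂ) := by
        intro z
        rw [cc_sk]
        have : cc (MM m ea ν) 0 0 z = (m z : ℂ) := by
          simp [cc, MZ, MM_0]
        rw [this]; push_cast; ring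
      simp only [e3]
      rw [integral_const_mul, integral_complex_ofReal, ← hAd]
    have h3 := tendsto_finsetSum s fun k _ => (h1 k).const_mul (α k)
    have e4 : ∑ k ∈ s, α k * (sg k * (A : ℂ)) = (A : ℂ) := by
      have e5 : ∑ k ∈ s, α k * (sg k * (A : ℂ)) = (∑ k ∈ s, sg k * α k) * (A : ℂ) := by
        rw [Finset.sum_mul]
        refine Finset.sum_congr rfl fun k _ => ?_
        ring
      rw [e5, s1, one_mul]
    rw [e4] at h3
    refine h3.congr fun n => ?_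
    unfold FA
    have jj : ∀ k : ℤ, Integrable (fun z => α k * ((((φ z * m z : ℝ)) : ℂ) *
        (w (0 + k) n z * w (0 - k) n z))) := fun k =>
      (TF.cint hφ2 ((cw (0 + k) n).mul (cw (0 - k) n))).const_mul _
    simp only [← integral_const_mul]
    rw [← integral_finsetSum _ fun k _ => jj k]
    congr 1; funext z
    rw [Finset.mul_sum]
    refine Finset.sum_congr rfl fun k _ => ?_
    ring
  refine ⟨by simp only [hFF]; rw [← hAd]; exact mean, ?_⟩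
  have var : ∀ n, ∫ z, φ z * ‖FA w 0 0 s α n z - (m z : ℂ)‖ ^ 2 =
      (∫ z, φ z * ‖FA w 0 0 s α n z‖ ^ 2) - 2 * (∫ z, (((φ z * m z : ℝ)) : ℂ) *
        FA w 0 0 s α n z).re + A := by
    intro n
    have j1 : Integrable (fun z => φ z * ‖FA w 0 0 s α n z‖ ^ 2) :=
      Pool.Agent.W311.RW.int_mul hB hφ ((cF n).norm.pow 2)
    have j2 : Integrable (fun z => (((φ z * m z : ℝ)) : ℂ) * FA w 0 0 s α n z) :=
      TF.cint hφ2 (cF n)
    have j3 : Integrable (fun z => φ z * (m z * m z)) :=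
      Pool.Agent.W311.RW.int_mul hB hφ (cm.mul cm)
    have j4 : Integrable (fun z => 2 * ((((φ z * m z : ℝ)) : ℂ) * FA w 0 0 s α n z).re) :=
      j2.re.const_mul 2
    have j5 : Integrable (fun z => φ z * ‖FA w 0 0 s α n z‖ ^ 2 -
      2 * ((((φ z * m z : ℝ)) : ℂ) * FA w 0 0 s α n z).re) := j1.sub j4
    rw [hAd, show ((∫ z, (((φ z * m z : ℝ)) : ℂ) * FA w 0 0 s α n z).re) =
        ∫ z, ((((φ z * m z : ℝ)) : ℂ) * FA w 0 0 s α n z).re from
        (integral_re j2).symm, ← integral_const_mul, ← integral_sub j1 j4,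
      ← integral_add j5 j3]
    congr 1; funext z
    have e5 : ‖FA w 0 0 s α n z - (m z : ℂ)‖ ^ 2 = ‖FA w 0 0 s α n z‖ ^ 2 -
        2 * (m z * (FA w 0 0 s α n z).re) + (m z * m z) := by
      simp only [Complex.sq_norm, normSq_apply, sub_re, sub_im, ofReal_re, ofReal_im]
      ring
    have e6 : ((((φ z * m z : ℝ)) : ℂ) * FA w 0 0 s α n z).re =
        φ z * (m z * (FA w 0 0 s α n z).re) := by
      simp only [mul_re, ofReal_re, ofReal_im]
      ring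
    rw [e5, e6]; ring
  have mre : Tendsto (fun n => (∫ z, (((φ z * m z : ℝ)) : ℂ) * FA w 0 0 s α n z).re) atTop
      (𝓝 A) := by
    have := (Complex.continuous_re.tendsto _).comp mean
    simpa [Function.comp_def] using this
  have ev1 := mre.eventually (lt_mem_nhds (show A - ε / 8 < A by linarith))
  have ev2 := FA_sharp hm hp H hK hKΩ hφ hφ0 0 0 ⟨0, rfl⟩ s α
    (show 0 < ε / (8 * (1 + T)) by positivity)
  have ev3 : ∀ᶠ n in atTop, ∫ z, φ z * ‖FA w 0 0 s α n z‖ ^ 2 ≤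
      A + 3 * (ε / 8) + 2 / 3 * ((∫ z, φ z * u n z ^ 4) - 3 * A) := by
    filter_upwards [ev2, EC, hT] with n g2 g3 g4
    rw [← hw, ← hAd, hA2, s1] at g2
    have g5 : ∑ k ∈ s, ∑ l ∈ s, ‖α k‖ * ‖α l‖ *
        (fK (MM m ea ν) φ (k - l) + fK (MM m ea ν) φ (0 - 0 + k + l)) < ε / 8 := by
      have : Sw (MM m ea ν) φ s α < ε / 8 := by rw [hs, hα]; exact hN1
      exact this
    have g6 : ‖∑ k ∈ s, α k‖ ^ 2 * (1 / 3 * (|Mφ| * T)) < ε / 8 := by
      have e7 : ∑ k ∈ s, α k = ∑ k ∈ Finset.Icc 1 N, (N : ℂ)⁻¹ * sg (k : ℤ) := by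
        rw [hs, hα, Finset.sum_map]
        rfl
      rw [e7]; exact hN2
    have g7 : ε / (8 * (1 + T)) * (1 + ∫ z in K, u n z ^ 4) ≤ ε / 8 := by
      have h1 : ε / (8 * (1 + T)) * (1 + ∫ z in K, u n z ^ 4) ≤ ε / (8 * (1 + T)) * (1 + T) :=
        mul_le_mul_of_nonneg_left (by linarith) (by positivity)
      refine h1.trans (le_of_eq ?_)
      have : (1 + T) ≠ 0 := by positivity
      field_simp
    have g8 : 1 / 3 * ‖∑ k ∈ s, α k‖ ^ 2 * ((∫ z, φ z * u n z ^ 4) - 3 * A) ≤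
        ‖∑ k ∈ s, α k‖ ^ 2 * (1 / 3 * (|Mφ| * T)) := by
      have h1 := mul_le_mul_of_nonneg_left g3
        (show 0 ≤ 1 / 3 * ‖∑ k ∈ s, α k‖ ^ 2 by positivity)
      linarith
    rw [norm_one, one_pow, mul_one, mul_one] at g2
    have e8 : (1 / 3 * ‖∑ k ∈ s, α k‖ ^ 2 + 2 / 3) * ((∫ z, φ z * u n z ^ 4) - 3 * A) =
        1 / 3 * ‖∑ k ∈ s, α k‖ ^ 2 * ((∫ z, φ z * u n z ^ 4) - 3 * A) +
        2 / 3 * ((∫ z, φ z * u n z ^ 4) - 3 * A) := by ring
    rw [e8] at g2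
    linarith
  refine ⟨?_, A + 3 * (ε / 8) + 2 / 3 * (|Mφ| * T), ?_⟩
  · filter_upwards [ev1, ev3] with n g1 g2
    simp only [hFF]
    rw [var n, ← hAd]
    linarith
  · filter_upwards [ev3, EC] with n g2 g3
    simp only [hFF]
    linarith

end

end Pool.Agent.P8H31.NZ
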