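import Pool.Agent.TH421.AC.Main

/-!
Project NZ (helper31): where a solution is small, all its semiclassical derivatives are small.
-/

set_option autoImplicit false
open MeasureTheory Filter Topology Complex
open scoped ContDiff ENNReal

namespace Pool.Agent.P8H31.NZ

open Pool.Agent.W745.RW Pool.Agent.TH294.RS Pool.Agent.TH294.RG Pool.Agent.TH421.DF
open Pool.Agent.TH421.AC

noncomputable section

variable {B : Set ℂ} {h : ℕ → ℝ}

/-- the image of a complex sequence under a real linear form -/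
def lf (L : ℂ →L[ℝ] ℝ) (f : ℕ → ℂ → ℂ) (n : ℕ) (z : ℂ) : ℝ := L (f n z)

lemma lf_sm (L : ℂ →L[ℝ] ℝ) {f : ℕ → ℂ → ℂ} (hf : ∀ n, ContDiffOn ℝ ∞ (f n) B) (n : ℕ) :
    ContDiffOn ℝ ∞ (lf L f n) B := L.contDiff.comp_contDiffOn (hf n)

lemma rd_lf (hB : IsOpen B) (L : ℂ →L[ℝ] ℝ) {f : ℕ → ℂ → ℂ} (hf : ∀ n, ContDiffOn ℝ ∞ (f n) B)
    (v : ℂ) (n : ℕ) {z : ℂ} (hz : z ∈ B) : rd h v (lf L f) n z = L (hd h v f n z) := by
  have d1 := (fda hB (hf n) hz).hasFDerivAt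
  have d2 : HasFDerivAt (fun w => L (f n w)) (L.comp (fderiv ℝ (f n) z)) z :=
    L.hasFDerivAt.comp z d1
  show h n * fderiv ℝ (fun w => L (f n w)) z v = L ((h n : ℂ) * fderiv ℝ (f n) z v)
  rw [d2.fderiv, ← real_smul, map_smul]
  rfl

lemma lb_lf {L : ℂ →L[ℝ] ℝ} (hL : ∀ w, |L w| ≤ ‖w‖) {f : ℕ → ℂ → ℂ} (H : LB B 2 f) :
    LB B 2 (cx (lf L f)) := by
  have sm : ∀ n, ContDiffOn ℝ ∞ (cx (lf L f) n) B := fun n =>
    ofRealCLM.contDiff.comp_contDiffOn (lf_sm L H.sm n)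
  refine ⟨sm, fun K hK hKB => ?_⟩
  obtain ⟨C, hC⟩ := H.bd K hK hKB
  refine ⟨C, hC.mono fun n hn => le_trans ?_ hn⟩
  refine intK_mono hK (((sm n).continuousOn.norm.pow 2).mono hKB) ((H.copow n 2).mono hKB)
    fun z _ => ?_
  refine pow_le_pow_left₀ (norm_nonneg _) ?_ 2
  simp only [cx, lf, norm_real, Real.norm_eq_abs]
  exact hL _

lemma mk_lf (hB : IsOpen B) {L : ℂ →L[ℝ] ℝ} (hL : ∀ w, |L w| ≤ ‖w‖) {k : ℕ} :
    ∀ {f : ℕ → ℂ → ℂ}, MK2 B h k f → MK2 B h k (cx (lf L f)) := by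
  induction k with
  | zero => intro f H; exact lb_lf hL H
  | succ k ih =>
    intro f H
    have e : ∀ v, ∀ n, ∀ z ∈ B, hd h v (cx (lf L f)) n z = cx (lf L (hd h v f)) n z := by
      intro v n z hz
      rw [hd_cx hB (lf_sm L H.1.sm) v n hz]
      show ((rd h v (lf L f) n z : ℝ) : ℂ) = ((lf L (hd h v f) n z : ℝ) : ℂ)
      rw [rd_lf hB L H.1.sm v n hz]
      rfl
    exact ⟨lb_lf hL H.1, (ih H.2.1).congr hB (e 1), (ih H.2.2).congr hB (e I)⟩

/-- subsets of the support of the test function -/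
def Sub (φ : ℂ → ℝ) (P : ℂ → Prop) : Set ℂ := {z | z ∈ tsupport φ ∧ P z}

lemma Sub_le {φ : ℂ → ℝ} (hc : HasCompactSupport φ) {f g : ℂ → ℝ} (hf : ContinuousOn f (tsupport φ))
    (hg : ContinuousOn g (tsupport φ)) : IsCompact (Sub φ fun z => f z ≤ g z) := by
  have h1 : IsClosed (tsupport φ) := isClosed_tsupport φ
  have h2 : IsClosed (Sub φ fun z => f z ≤ g z) := by
    have : Sub φ (fun z => f z ≤ g z) = tsupport φ ∩ (fun z => g z - f z) ⁻¹' Set.Ici 0 := by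
      ext z
      simp [Sub]
    rw [this]
    exact (hg.sub hf).preimage_isClosed_of_isClosed h1 isClosed_Ici
  exact IsCompact.of_isClosed_subset hc h2 fun z hz => hz.1

/-- **One step**: where `f` is small, its derivative is small in the mean. -/
theorem step (hB : IsOpen B) (hp : ∀ n, 0 < h n) (hh : Tendsto h atTop (𝓝 0))
    {f : ℕ → ℂ → ℂ} (hf : MK2 B h 2 f) {a : ℂ → ℝ} (ha : ContDiffOn ℝ ∞ a B)
    {φ : ℂ → ℝ} (hφ : TF B φ) (hφ0 : ∀ z, 0 ≤ φ z) :
    ∃ C : ℝ, 0 ≤ C ∧ ∀ᶠ n in atTop, ∀ s : ℝ, 0 < s →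
      ∫ z in Sub φ (fun z => ‖f n z‖ ≤ s), φ z * ‖sP a h f n z‖ ^ 2 ≤ s * C := by
  obtain ⟨θ, Cθ, sθ, θ0, θ1, θe, Cθ0, hCθ⟩ := exists_theta
  obtain ⟨ψ, hψ⟩ : ∃ ψ : ℂ → ℝ, ψ = fun z => φ z * (a z ^ 2) := ⟨_, rfl⟩
  have tψ : TF B ψ := by rw [hψ]; exact TF.mulc hB hφ (ha.pow 2)
  have ψ0 : ∀ z, 0 ≤ ψ z := fun z => by rw [hψ]; exact mul_nonneg (hφ0 z) (sq_nonneg _)
  have hre : ∀ w, |reCLM w| ≤ ‖w‖ := fun w => Complex.abs_re_le_norm w
  have him : ∀ w, |imCLM w| ≤ ‖w‖ := fun w => Complex.abs_im_le_norm w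
  have sf := hf.lb.sm
  have s1 := lf_sm (B := B) reCLM sf
  have s2 := lf_sm (B := B) imCLM sf
  obtain ⟨C1, C10, E1⟩ := energy hB hp hh s1 (mk_lf hB hre hf) tψ (v := 1) (Or.inl rfl)
  obtain ⟨C2, C20, E2⟩ := energy hB hp hh s1 (mk_lf hB hre hf) tψ (v := I) (Or.inr rfl)
  obtain ⟨C3, C30, E3⟩ := energy hB hp hh s2 (mk_lf hB him hf) tψ (v := 1) (Or.inl rfl)
  obtain ⟨C4, C40, E4⟩ := energy hB hp hh s2 (mk_lf hB him hf) tψ (v := I) (Or.inr rfl)
  refine ⟨2 * (Cθ * C1 + Cθ * C2 + Cθ * C3 + Cθ * C4), by positivity, ?_⟩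
  filter_upwards [E1, E2, E3, E4] with n E1 E2 E3 E4 s hs
  have sg : ContDiff ℝ ∞ (fun t => θ (t / s)) := sθ.comp (contDiff_id.div_const _)
  have F1 := E1 _ _ sg (Pr_scale hs hCθ)
  have F2 := E2 _ _ sg (Pr_scale hs hCθ)
  have F3 := E3 _ _ sg (Pr_scale hs hCθ)
  have F4 := E4 _ _ sg (Pr_scale hs hCθ)
  have hSB : tsupport φ ⊆ B := hφ.2.2
  have z0 : ∀ z, z ∉ tsupport φ → ψ z = 0 := fun z hz => by
    rw [hψ]; show φ z * _ = 0; rw [image_eq_zero_of_notMem_tsupport hz, zero_mul]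
  have cψ : Continuous ψ := tψ.1.continuous
  have cont : ∀ (L : ℂ →L[ℝ] ℝ) (v : ℂ), ContinuousOn (fun z => ψ z * (θ (lf L f n z / s) *
      rd h v (lf L f) n z ^ 2)) (tsupport φ) := by
    intro L v
    have c1 : ContinuousOn (lf L f n) (tsupport φ) := (lf_sm L sf n).continuousOn.mono hSB
    have c2 : ContinuousOn (rd h v (lf L f) n) (tsupport φ) :=
      (rd_sm hB (lf_sm L sf) v n).continuousOn.mono hSB
    exact cψ.continuousOn.mul ((sθ.continuous.comp_continuousOn (c1.div_const _)).mul (c2.pow 2))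
  have int : ∀ (L : ℂ →L[ℝ] ℝ) (v : ℂ), Integrable (fun z => ψ z * (θ (lf L f n z / s) *
      rd h v (lf L f) n z ^ 2)) := fun L v =>
    rint hφ.2.1 (cont L v) fun z hz => by rw [z0 z hz, zero_mul]
  have nn : ∀ (L : ℂ →L[ℝ] ℝ) (v : ℂ) (z : ℂ), 0 ≤ ψ z * (θ (lf L f n z / s) *
      rd h v (lf L f) n z ^ 2) := fun L v z =>
    mul_nonneg (ψ0 z) (mul_nonneg (θ0 _) (sq_nonneg _))
  have cf : ContinuousOn (fun z => ‖f n z‖) (tsupport φ) :=
    (hf.lb.co n).norm.mono hSB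
  have cT : IsCompact (Sub φ (fun z => ‖f n z‖ ≤ s)) :=
    Sub_le hφ.2.1 cf continuousOn_const
  have cP : ContinuousOn (sP a h f n) B := by
    have : ContDiffOn ℝ ∞ (sP a h f n) B := DP_sm hB ha (h n) (sf n)
    exact this.continuousOn
  have iL : IntegrableOn (fun z => φ z * ‖sP a h f n z‖ ^ 2) (Sub φ (fun z => ‖f n z‖ ≤ s)) := by
    refine ContinuousOn.integrableOn_compact cT ?_
    exact (hφ.1.continuous.continuousOn.mul ((cP.norm).pow 2)).mono fun z hz => hSB hz.1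
  have key : ∀ z ∈ Sub φ (fun z => ‖f n z‖ ≤ s), φ z * ‖sP a h f n z‖ ^ 2 ≤
      2 * (ψ z * (θ (lf reCLM f n z / s) * rd h 1 (lf reCLM f) n z ^ 2) +
        ψ z * (θ (lf reCLM f n z / s) * rd h I (lf reCLM f) n z ^ 2) +
        ψ z * (θ (lf imCLM f n z / s) * rd h 1 (lf imCLM f) n z ^ 2) +
        ψ z * (θ (lf imCLM f n z / s) * rd h I (lf imCLM f) n z ^ 2)) := by
    rintro z ⟨hz, hzs⟩
    have hzB := hSB hz
    have t : ∀ L : ℂ →L[ℝ] ℝ, (∀ w, |L w| ≤ ‖w‖) → θ (lf L f n z / s) = 1 := by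
      intro L hL
      apply θe
      rw [abs_div, abs_of_pos hs, div_le_one hs]
      exact (hL _).trans hzs
    rw [t _ hre, t _ him, rd_lf hB _ sf 1 n hzB, rd_lf hB _ sf I n hzB, rd_lf hB _ sf 1 n hzB,
      rd_lf hB _ sf I n hzB]
    simp only [reCLM_apply, imCLM_apply, one_mul]
    have e1 : sP a h f n z = (a z : ℂ) * (hd h 1 f n z - I * hd h I f n z) := by
      simp only [sP, DP, dd, dx, dy, hd]; ring
    obtain ⟨X, hX⟩ : ∃ X : ℂ, X = hd h 1 f n z := ⟨_, rfl⟩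
    obtain ⟨Y, hY⟩ : ∃ Y : ℂ, Y = hd h I f n z := ⟨_, rfl⟩
    rw [e1, ← hX, ← hY, hψ]
    beta_reduce
    have e2 : ‖(a z : ℂ) * (X - I * Y)‖ ^ 2 = a z ^ 2 * ((X.re + Y.im) ^ 2 + (X.im - Y.re) ^ 2) := by
      rw [Complex.sq_norm, normSq_apply]
      simp only [mul_re, mul_im, ofReal_re, ofReal_im, sub_re, sub_im, I_re, I_im]
      ring
    rw [e2]
    have h2 : (X.re + Y.im) ^ 2 + (X.im - Y.re) ^ 2 ≤
        2 * (X.re ^ 2 + Y.re ^ 2 + X.im ^ 2 + Y.im ^ 2) := by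
      nlinarith [sq_nonneg (X.re - Y.im), sq_nonneg (X.im + Y.re)]
    have h3 := mul_le_mul_of_nonneg_left h2 (mul_nonneg (hφ0 z) (sq_nonneg (a z)))
    refine le_trans (le_of_eq ?_) (h3.trans (le_of_eq ?_)) <;> ring
  have iR : Integrable (fun z => 2 * (ψ z * (θ (lf reCLM f n z / s) * rd h 1 (lf reCLM f) n z ^ 2) +
        ψ z * (θ (lf reCLM f n z / s) * rd h I (lf reCLM f) n z ^ 2) +
        ψ z * (θ (lf imCLM f n z / s) * rd h 1 (lf imCLM f) n z ^ 2) +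
        ψ z * (θ (lf imCLM f n z / s) * rd h I (lf imCLM f) n z ^ 2))) :=
    ((((int reCLM 1).add (int reCLM I)).add (int imCLM 1)).add (int imCLM I)).const_mul 2
  refine (setIntegral_mono_on iL iR.integrableOn cT.measurableSet key).trans ?_
  refine (setIntegral_le_integral iR (ae_of_all _ fun z => ?_)).trans ?_
  · have := nn reCLM 1 z
    have := nn reCLM I z
    have := nn imCLM 1 z
    have := nn imCLM I z
    show 0 ≤ 2 * (_ + _ + _ + _)
    linarith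
  · rw [integral_const_mul, integral_add, integral_add, integral_add]
    · linarith
    · exact int reCLM 1
    · exact int reCLM I
    · exact (int reCLM 1).add (int reCLM I)
    · exact int imCLM 1
    · exact ((int reCLM 1).add (int reCLM I)).add (int imCLM 1)
    · exact int imCLM I

/-- **All derivatives**: where the solution is small, the ladder is small in measure. -/
theorem all_small (hB : IsOpen B) (hp : ∀ n, 0 < h n) (hh : Tendsto h atTop (𝓝 0))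
    {u : ℕ → ℂ → ℝ} (hu : ∀ k, MK2 B h k (fun n z => (u n z : ℂ)))
    {a : ℂ → ℝ} (ha : ContDiffOn ℝ ∞ a B)
    {φ : ℂ → ℝ} (hφ : TF B φ) (hφ0 : ∀ z, 0 ≤ φ z) (k : ℕ) :
    ∀ η : ℝ, 0 < η → ∀ ε : ℝ, 0 < ε → ∃ δ : ℝ, 0 < δ ∧ ∀ᶠ n in atTop,
      ∫ z in Sub φ (fun z => |u n z| ≤ δ) ∩
        Sub φ (fun z => η ≤ ‖wn a h (fun n z => (u n z : ℂ)) k n z‖), φ z ≤ ε := by
  have MKw := fun k => wn_lb2 hB hh ha hu k
  have iφ : Integrable φ := hφ.1.continuous.integrable_of_hasCompactSupport hφ.2.1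
  have cw : ∀ k n, ContinuousOn (fun z => ‖wn a h (fun n z => (u n z : ℂ)) k n z‖) (tsupport φ) :=
    fun k n => (((MKw k 0).lb.co n).norm).mono hφ.2.2
  have su : ∀ n, ContDiffOn ℝ ∞ (u n) B := fun n => by
    have h1 := (hu 0).lb.sm n
    exact (reCLM.contDiff.comp_contDiffOn h1).congr fun z _ => rfl
  have cu : ∀ n, ContinuousOn (fun z => |u n z|) (tsupport φ) := fun n =>
    ((su n).continuousOn.abs).mono hφ.2.2
  induction k with
  | zero =>
    intro η hη ε hε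
    refine ⟨η / 2, by positivity, Eventually.of_forall fun n => ?_⟩
    have : Sub φ (fun z => |u n z| ≤ η / 2) ∩
        Sub φ (fun z => η ≤ ‖wn a h (fun n z => (u n z : ℂ)) 0 n z‖) = ∅ := by
      ext z
      simp only [Set.mem_inter_iff, Set.mem_empty_iff_false, iff_false]
      rintro ⟨⟨_, h1⟩, ⟨_, h2⟩⟩
      have e : wn a h (fun n z => (u n z : ℂ)) 0 n z = (u n z : ℂ) := rfl
      rw [e, norm_real, Real.norm_eq_abs] at h2
      linarith
    rw [this]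
    simp [hε.le]
  | succ k ih =>
    intro η hη ε hε
    obtain ⟨C, C0, hC⟩ := step hB hp hh (MKw k 2) ha hφ hφ0
    obtain ⟨s, hs⟩ : ∃ s : ℝ, s = ε * η ^ 2 / (2 * (C + 1)) := ⟨_, rfl⟩
    have s0 : 0 < s := by rw [hs]; positivity
    have sC : s * C ≤ ε * η ^ 2 / 2 := by
      have e1 : s * C = (ε * η ^ 2 / 2) * (C / (C + 1)) := by rw [hs]; field_simp
      rw [e1]
      refine mul_le_of_le_one_right (by positivity) ?_
      rw [div_le_one (by positivity)]; linarith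
    obtain ⟨δ, δ0, hδ⟩ := ih s s0 (ε / 2) (by positivity)
    refine ⟨δ, δ0, ?_⟩
    filter_upwards [hδ, hC] with n h1 h2
    have h2 := h2 s s0
    have e3 : ∀ z, wn a h (fun n z => (u n z : ℂ)) (k + 1) n z =
        sP a h (wn a h (fun n z => (u n z : ℂ)) k) n z := fun z => by
      rw [wn_succ]; rfl
    obtain ⟨A, hA⟩ : ∃ A : Set ℂ, A = Sub φ (fun z => |u n z| ≤ δ) ∩
      Sub φ (fun z => s ≤ ‖wn a h (fun n z => (u n z : ℂ)) k n z‖) := ⟨_, rfl⟩
    obtain ⟨D, hD⟩ : ∃ D : Set ℂ, D = Sub φ (fun z => ‖wn a h (fun n z => (u n z : ℂ)) k n z‖ ≤ s) ∩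
      Sub φ (fun z => η ≤ ‖wn a h (fun n z => (u n z : ℂ)) (k + 1) n z‖) := ⟨_, rfl⟩
    have mA : MeasurableSet A := by
      rw [hA]
      exact (Sub_le hφ.2.1 (cu n) continuousOn_const).measurableSet.inter
        (Sub_le hφ.2.1 continuousOn_const (cw k n)).measurableSet
    have mD1 : MeasurableSet (Sub φ (fun z => ‖wn a h (fun n z => (u n z : ℂ)) k n z‖ ≤ s)) :=
      (Sub_le hφ.2.1 (cw k n) continuousOn_const).measurableSet
    have mD : MeasurableSet D := by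
      rw [hD]
      exact mD1.inter (Sub_le hφ.2.1 continuousOn_const (cw (k + 1) n)).measurableSet
    have sub : Sub φ (fun z => |u n z| ≤ δ) ∩
        Sub φ (fun z => η ≤ ‖wn a h (fun n z => (u n z : ℂ)) (k + 1) n z‖) ⊆ A ∪ D := by
      rintro z ⟨⟨hz, z1⟩, ⟨_, z2⟩⟩
      rcases le_total s ‖wn a h (fun n z => (u n z : ℂ)) k n z‖ with h | h
      · left; rw [hA]; exact ⟨⟨hz, z1⟩, ⟨hz, h⟩⟩
      · right; rw [hD]; exact ⟨⟨hz, h⟩, ⟨hz, z2⟩⟩
    have b1 : ∫ z in Sub φ (fun z => |u n z| ≤ δ) ∩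
        Sub φ (fun z => η ≤ ‖wn a h (fun n z => (u n z : ℂ)) (k + 1) n z‖), φ z ≤
        ∫ z in A ∪ D, φ z :=
      setIntegral_mono_set iφ.integrableOn (ae_of_all _ hφ0) sub.eventuallyLE
    have b2 : ∫ z in A ∪ D, φ z ≤ (∫ z in A, φ z) + ∫ z in D, φ z := by
      have e4 : A ∪ D = A ∪ (D \ A) := by rw [Set.union_diff_self]
      rw [e4, setIntegral_union Set.disjoint_sdiff_right (mD.diff mA) iφ.integrableOn
        iφ.integrableOn]
      refine add_le_add le_rfl ?_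
      exact setIntegral_mono_set iφ.integrableOn (ae_of_all _ hφ0) Set.diff_subset.eventuallyLE
    have b3 : η ^ 2 * ∫ z in D, φ z ≤ s * C := by
      refine le_trans ?_ h2
      rw [← integral_const_mul]
      have i1 : IntegrableOn (fun z => φ z *
          ‖sP a h (wn a h (fun n z => (u n z : ℂ)) k) n z‖ ^ 2)
          (Sub φ (fun z => ‖wn a h (fun n z => (u n z : ℂ)) k n z‖ ≤ s)) := by
        have e4 : (fun z => φ z * ‖sP a h (wn a h (fun n z => (u n z : ℂ)) k) n z‖ ^ 2) =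
            fun z => φ z * ‖wn a h (fun n z => (u n z : ℂ)) (k + 1) n z‖ ^ 2 := by
          funext z; rw [e3]
        rw [e4]
        refine ContinuousOn.integrableOn_compact (Sub_le hφ.2.1 (cw k n) continuousOn_const) ?_
        have c5 : ContinuousOn (fun z => φ z * ‖wn a h (fun n z => (u n z : ℂ)) (k + 1) n z‖ ^ 2)
            (tsupport φ) := hφ.1.continuous.continuousOn.mul ((cw (k + 1) n).pow 2)
        exact c5.mono fun z hz => hz.1
      refine le_trans ?_ (setIntegral_mono_set i1 (ae_of_all _ fun z =>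
        mul_nonneg (hφ0 z) (sq_nonneg _)) (show D ≤ᵐ[volume] _ from ?_))
      · refine setIntegral_mono_on (iφ.integrableOn.const_mul _) (i1.mono_set ?_) mD
          fun z hz => ?_
        · rw [hD]; exact Set.inter_subset_left
        · rw [hD] at hz
          have h5 : η ≤ ‖wn a h (fun n z => (u n z : ℂ)) (k + 1) n z‖ := hz.2.2
          rw [e3] at h5
          have h6 := pow_le_pow_left₀ hη.le h5 2
          have h7 := mul_le_mul_of_nonneg_right h6 (hφ0 z)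
          linarith
      · rw [hD]; exact Set.inter_subset_left.eventuallyLE
    have b4 : ∫ z in D, φ z ≤ ε / 2 := by
      have h8 : 0 < η ^ 2 := by positivity
      have h9 := b3.trans sC
      nlinarith
    rw [← hA] at h1
    linarith

end

end Pool.Agent.P8H31.NZ
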