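import Pool.Agent.P8H31.NZ.Det
import Pool.Agent.P8H31.NZ.Small
import Pool.Agent.P8H31.NZ.Mean
import Pool.Agent.TH294.RG.Ms4

/-!
Project NZ (helper31): the set where a solution is small, and the fourth moment.
-/

set_option autoImplicit false
open MeasureTheory Filter Topology Complex ProbabilityTheory
open scoped ContDiff ENNReal

namespace Pool.Agent.P8H31.NZ

open Pool.Agent.W745.RW Pool.Agent.TH294.RS Pool.Agent.TH294.RG Pool.Agent.TH421.DF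
open Pool.Agent.TH421.AC

noncomputable section

variable {m : ℂ → ℝ} {ν : Kernel ℂ ℝ}

/-- all semiclassical derivatives of the solutions are locally bounded in `L²` -/
theorem RawG_mk {B : Set ℂ} (hB : IsOpen B) {a : ℂ → ℝ} {h : ℕ → ℝ} {u : ℕ → ℂ → ℝ}
    {M : ℕ → ℂ → ℂ} (H : RawG B a h u M) (k : ℕ) : MK2 B h k (fun n z => (u n z : ℂ)) := by
  have sm : ∀ n, ContDiffOn ℝ ∞ (fun z => (u n z : ℂ)) B := fun n => cxa (H.sm n)
  have hb : LB B 2 (fun n z => (u n z : ℂ)) := H.lb2 hB 0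
  have ha2 : ContDiffOn ℝ ∞ (fun z => ((a z : ℂ) ^ 2)⁻¹) B := by
    refine ContDiffOn.inv ((cxa H.sa).pow 2) fun z hz => ?_
    have := (H.pa z hz).ne'
    exact pow_ne_zero 2 (by exact_mod_cast this)
  have he : ∀ n, ∀ z ∈ B, (h n : ℂ) ^ 2 * ((a z : ℂ) ^ 2 * lap (fun z => (u n z : ℂ)) z) =
      - (u n z : ℂ) := by
    intro n z hz
    rw [lap_re hB (H.sm n) hz]
    have h1 := H.eq n z hz
    have h2 : ((h n ^ 2 * (a z ^ 2 * lap (u n) z) + u n z : ℝ) : ℂ) = 0 := by rw [h1]; simp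
    push_cast at h2
    linear_combination h2
  exact MK2.sol hB H.hpos H.hlim hb ha2
    (fun n z hz => by
      have h1 := he n z hz
      have h2 : (a z : ℂ) ^ 2 ≠ 0 := pow_ne_zero 2 (by exact_mod_cast (H.pa z hz).ne')
      have h3 : hL h (fun n z => (u n z : ℂ)) n z = ((a z : ℂ) ^ 2)⁻¹ * ((h n : ℂ) ^ 2 *
          ((a z : ℂ) ^ 2 * lap (fun z => (u n z : ℂ)) z)) := by
        have h4 : ((a z : ℂ) ^ 2)⁻¹ * (a z : ℂ) ^ 2 = 1 := inv_mul_cancel₀ h2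
        simp only [hL]
        linear_combination (-((h n : ℂ) ^ 2 * lap (fun z => (u n z : ℂ)) z)) * h4
      rw [h3, h1]; ring) k

/-- the measure `φ dz` -/
def mu (φ : ℂ → ℝ) : Measure ℂ :=
  (volume.restrict (tsupport φ)).withDensity fun z => ENNReal.ofReal (φ z)

lemma mu_fin {φ : ℂ → ℝ} (hc : Continuous φ) (hs : HasCompactSupport φ) :
    IsFiniteMeasure (mu φ) :=
  isFiniteMeasure_withDensity_ofReal (hc.integrable_of_hasCompactSupport hs).restrict.2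

lemma mu_set {φ : ℂ → ℝ} (hc : Continuous φ) (hφ0 : ∀ z, 0 ≤ φ z) {Z : Set ℂ}
    (hZ : MeasurableSet Z) (f : ℂ → ℝ) :
    ∫ x in Z, f x ∂(mu φ) = ∫ z in Z ∩ tsupport φ, φ z * f z := by
  unfold mu
  rw [setIntegral_withDensity_eq_setIntegral_toReal_smul
    (hc.measurable.ennreal_ofReal) (ae_of_all _ fun z => ENNReal.ofReal_lt_top) _ hZ,
    Measure.restrict_restrict hZ]
  congr 1; funext z
  rw [ENNReal.toReal_ofReal (hφ0 z), smul_eq_mul]

lemma mu_int {φ : ℂ → ℝ} (hc : Continuous φ) (hφ0 : ∀ z, 0 ≤ φ z) (f : ℂ → ℝ) :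
    ∫ x, f x ∂(mu φ) = ∫ z, φ z * f z := by
  have h1 := mu_set hc hφ0 MeasurableSet.univ f
  rw [setIntegral_univ, Set.univ_inter] at h1
  rw [h1]
  refine setIntegral_eq_integral_of_forall_compl_eq_zero fun z hz => ?_
  rw [image_eq_zero_of_notMem_tsupport hz, zero_mul]

lemma mu_real {φ : ℂ → ℝ} (hc : Continuous φ) (hφ0 : ∀ z, 0 ≤ φ z) {Z : Set ℂ}
    (hZ : MeasurableSet Z) : (mu φ).real Z = ∫ z in Z ∩ tsupport φ, φ z := by
  have h1 := mu_set hc hφ0 hZ (fun _ => 1)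
  rw [setIntegral_const, smul_eq_mul, mul_one] at h1
  rw [h1]
  simp only [mul_one]

lemma mu_ae {φ : ℂ → ℝ} {P : ℂ → Prop} (h : ∀ z ∈ tsupport φ, P z) : ∀ᵐ z ∂(mu φ), P z := by
  have h1 : ∀ᵐ z ∂(volume.restrict (tsupport φ)), P z :=
    (ae_restrict_mem (isClosed_tsupport φ).measurableSet).mono h
  exact (withDensity_absolutelyContinuous _ _).ae_le h1

lemma mu_asm {E : Type*} [TopologicalSpace E] [TopologicalSpace.PseudoMetrizableSpace E]
    [SecondCountableTopologyEither ℂ E] {φ : ℂ → ℝ} {f : ℂ → E}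
    (h : ContinuousOn f (tsupport φ)) : AEStronglyMeasurable f (mu φ) :=
  (h.aestronglyMeasurable (isClosed_tsupport φ).measurableSet).mono_ac
    (withDensity_absolutelyContinuous _ _)

/-- **The bounded case.** -/
theorem vanish_b [IsMarkovKernel ν] {Ω : Set ℂ}
    (hm : ∀ K : Set ℂ, IsCompact K → K ⊆ Ω → MemLp m 2 (volume.restrict K))
    (hms : ContDiffOn ℝ ∞ m Ω)
    (hp : ∀ᵐ z ∂(volume.restrict Ω), par ea (ν z) = 0) {a : ℂ → ℝ} {h : ℕ → ℝ} {u : ℕ → ℂ → ℝ}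
    (H : RawG Ω a h u (MM m ea ν)) {K : Set ℂ} (hK : IsCompact K) (hKΩ : K ⊆ Ω)
    {φ : ℂ → ℝ} (hφ : TF (interior K) φ) (hφ0 : ∀ z, 0 ≤ φ z) {T : ℝ}
    (hT : ∀ᶠ n in atTop, ∫ z in K, u n z ^ 4 ≤ T) {ε : ℝ} (hε : 0 < ε) :
    ∃ δ : ℝ, 0 < δ ∧ ∀ᶠ n in atTop, ∀ Z : Set ℂ, MeasurableSet Z →
      Z ⊆ Sub φ (fun z => |u n z| ≤ δ) →
      3 / 2 * ((∫ z, φ z * m z ^ 2) * ∫ z in Z, φ z * m z ^ 2) ≤
        ((∫ z, φ z * m z ^ 2) - ∫ z in Z, φ z * m z ^ 2) *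
          ((∫ z, φ z * u n z ^ 4) - 3 * ∫ z, φ z * m z ^ 2) + ε := by
  have hB : IsOpen (interior K) := isOpen_interior
  have hBΩ : interior K ⊆ Ω := interior_subset.trans hKΩ
  have hSB : tsupport φ ⊆ interior K := hφ.2.2
  have H1 : RawG (interior K) a h u (MM m ea ν) := H.cmp hBΩ tendsto_id
  have cm : ContinuousOn m (tsupport φ) := hms.continuousOn.mono (hSB.trans hBΩ)
  obtain ⟨M', hM'⟩ := hφ.2.1.exists_bound_of_continuousOn cm
  obtain ⟨M, hMd⟩ : ∃ M : ℝ, M = |M'| := ⟨_, rfl⟩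
  have M0 : 0 ≤ M := by rw [hMd]; exact abs_nonneg _
  have hM : ∀ z ∈ tsupport φ, |m z| ≤ M := fun z hz => by
    rw [hMd]; exact (hM' z hz).trans (le_abs_self _)
  obtain ⟨A, hA⟩ : ∃ A : ℝ, A = ∫ z, φ z * m z ^ 2 := ⟨_, rfl⟩
  have hA2 : ∫ z, φ z * (m z * m z) = A := by
    rw [hA]; congr 1; funext z; ring
  have A0 : 0 ≤ A := by
    rw [hA]; exact integral_nonneg fun z => mul_nonneg (hφ0 z) (sq_nonneg _)
  rw [← hA]
  have fin : IsFiniteMeasure (mu φ) := mu_fin hφ.1.continuous hφ.2.1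
  obtain ⟨U, hU⟩ : ∃ U : ℝ, U = (mu φ).real Set.univ := ⟨_, rfl⟩
  have U0 : 0 ≤ U := by rw [hU]; exact measureReal_nonneg
  -- parameters
  obtain ⟨N, hN, mean, var, CF', hCF'⟩ := mean_var hm hms hp H hK hKΩ hφ hφ0 hT
    (ε := ε / (6 * (A + 1))) (by positivity)
  rw [hA2] at mean
  simp only [hA2] at var
  obtain ⟨CF, hCFd⟩ : ∃ CF : ℝ, CF = |CF'| := ⟨_, rfl⟩
  have CF0 : 0 ≤ CF := by rw [hCFd]; exact abs_nonneg _
  have hCF : ∀ᶠ n in atTop, ∫ z, φ z * ‖FF a h u N n z‖ ^ 2 ≤ CF :=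
    hCF'.mono fun n hn => hn.trans (by rw [hCFd]; exact le_abs_self _)
  obtain ⟨t, ht⟩ : ∃ t : ℝ, t = ε / (12 * (A + 1) * (CF + 1)) := ⟨_, rfl⟩
  have t0 : 0 < t := by rw [ht]; positivity
  obtain ⟨κ, hκ⟩ : ∃ κ : ℝ, κ = ε / (48 * (A + 1) * (M + 1) * (U + 1)) := ⟨_, rfl⟩
  have κ0 : 0 < κ := by rw [hκ]; positivity
  obtain ⟨g, hg⟩ : ∃ g : ℝ, g = ε / (12 * (A + 1) * (M ^ 2 + 1) * (1 + 1 / t)) := ⟨_, rfl⟩
  have g0 : 0 < g := by rw [hg]; positivity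
  have η0 : 0 < √κ := Real.sqrt_pos.2 κ0
  have η2 : √κ ^ 2 = κ := Real.sq_sqrt κ0.le
  have gN : 0 < g / N := div_pos g0 (by exact_mod_cast hN)
  choose δ' hδ'0 hδ' using fun k : ℕ => all_small hB H.hpos H.hlim (fun k => RawG_mk hB H1 k)
    H1.sa hφ hφ0 k (√κ) η0 (g / N) gN
  obtain ⟨δ, δ0, hδ⟩ : ∃ δ : ℝ, 0 < δ ∧ ∀ k ∈ Finset.Icc 1 N, δ ≤ δ' k := by
    have hne : (Finset.Icc 1 N).Nonempty := Finset.nonempty_Icc.2 hN
    refine ⟨(Finset.Icc 1 N).inf' hne δ', (Finset.lt_inf'_iff hne).2 fun k _ => hδ'0 k,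
      fun k hk => Finset.inf'_le _ hk⟩
  refine ⟨δ, δ0, ?_⟩
  have mre : Tendsto (fun n => (∫ z, (((φ z * m z : ℝ)) : ℂ) * FF a h u N n z).re) atTop
      (𝓝 A) := by
    have := (Complex.continuous_re.tendsto _).comp mean
    simpa [Function.comp_def] using this
  have ev1 := (Metric.tendsto_nhds.1 mre) (ε / (24 * (A + 1))) (by positivity)
  have ev2 : ∀ᶠ n in atTop, ∀ k ∈ Finset.Icc 1 N, ∫ z in Sub φ (fun z => |u n z| ≤ δ' k) ∩
      Sub φ (fun z => √κ ≤ ‖wn a h (fun n z => (u n z : ℂ)) k n z‖), φ z ≤ g / N :=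
    (Finset.eventually_all _).2 fun k _ => hδ' k
  filter_upwards [var, hCF, ev1, ev2] with n var hCF ev1 ev2 Z mZ hZ
  -- continuity
  have cw : ∀ k, ContinuousOn (fun z => ‖wn a h (fun n z => (u n z : ℂ)) k n z‖) (tsupport φ) :=
    fun k => ((H1.lb2 hB (k : ℤ)).co n).norm.mono hSB
  have cu : ContinuousOn (fun z => |u n z|) (tsupport φ) :=
    ((H.sm n).continuousOn.mono (hSB.trans hBΩ)).abs
  have cF : ContinuousOn (FF a h u N n) (tsupport φ) := (FF_sm hB H1 N n).mono hSB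
  obtain ⟨CB, hCB⟩ := hφ.2.1.exists_bound_of_continuousOn cF
  have lF : MemLp (FF a h u N n) 2 (mu φ) :=
    MemLp.of_bound (mu_asm cF) CB (mu_ae hCB)
  -- the bad set
  obtain ⟨G, hG⟩ : ∃ G : Set ℂ, G = ⋃ k ∈ Finset.Icc 1 N, (Sub φ (fun z => |u n z| ≤ δ' k) ∩
      Sub φ (fun z => √κ ≤ ‖wn a h (fun n z => (u n z : ℂ)) k n z‖)) := ⟨_, rfl⟩
  have mb : ∀ k, MeasurableSet (Sub φ (fun z => |u n z| ≤ δ' k) ∩
      Sub φ (fun z => √κ ≤ ‖wn a h (fun n z => (u n z : ℂ)) k n z‖)) := fun k =>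
    (Sub_le hφ.2.1 cu continuousOn_const).measurableSet.inter
      (Sub_le hφ.2.1 continuousOn_const (cw k)).measurableSet
  have mG : MeasurableSet G := by
    rw [hG]; exact Finset.measurableSet_biUnion _ fun k _ => mb k
  have Gg : (mu φ).real G ≤ g := by
    rw [hG]
    refine (measureReal_biUnion_finset_le _ _).trans ?_
    have e1 : ∀ k ∈ Finset.Icc 1 N, (mu φ).real (Sub φ (fun z => |u n z| ≤ δ' k) ∩
        Sub φ (fun z => √κ ≤ ‖wn a h (fun n z => (u n z : ℂ)) k n z‖)) ≤ g / N := by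
      intro k hk
      rw [mu_real hφ.1.continuous hφ0 (mb k), Set.inter_eq_left.2 fun z hz => hz.1.1]
      exact ev2 k hk
    refine (Finset.sum_le_sum e1).trans (le_of_eq ?_)
    rw [Finset.sum_const, Nat.card_Icc, Nat.add_sub_cancel, nsmul_eq_mul]
    have : (N : ℝ) ≠ 0 := by exact_mod_cast hN.ne'
    field_simp
  have hκZ : ∀ x ∈ Z, x ∉ G → ‖FF a h u N n x‖ ≤ κ := by
    intro x hx hxG
    rw [← η2]
    refine FF_le hN η0.le fun k hk => ?_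
    by_contra hc
    have hx2 := hZ hx
    apply hxG
    rw [hG]
    simp only [Set.mem_iUnion]
    exact ⟨k, hk, ⟨hx2.1, hx2.2.trans (hδ k hk)⟩, ⟨hx2.1, (not_le.1 hc).le⟩⟩
  have D := det (mu φ) (mu_asm cm) M0 (mu_ae hM) lF mZ mG κ0.le hκZ t0
  have ZS : Z ∩ tsupport φ = Z := Set.inter_eq_left.2 fun z hz => (hZ hz).1
  have cφ := hφ.1.continuous
  rw [mu_int cφ hφ0, mu_set cφ hφ0 mZ, ZS, mu_int cφ hφ0, mu_int cφ hφ0, mu_int cφ hφ0, ← hA,
    ← hU] at D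
  obtain ⟨V, hV⟩ : ∃ V : ℝ, V = ∫ z in Z, φ z * m z ^ 2 := ⟨_, rfl⟩
  obtain ⟨v, hv⟩ : ∃ v : ℝ, v = ∫ z, φ z * ‖FF a h u N n z - (m z : ℂ)‖ ^ 2 := ⟨_, rfl⟩
  obtain ⟨E, hE⟩ : ∃ E : ℝ, E = (∫ z, φ z * u n z ^ 4) - 3 * A := ⟨_, rfl⟩
  obtain ⟨g', hg'⟩ : ∃ g' : ℝ, g' = (mu φ).real G := ⟨_, rfl⟩
  have eJ : ∫ z, φ z * (m z * (FF a h u N n z).re) =
      (∫ z, (((φ z * m z : ℝ)) : ℂ) * FF a h u N n z).re := by
    have i1 : Integrable (fun z => (((φ z * m z : ℝ)) : ℂ) * FF a h u N n z) :=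
      TF.cint (TF.mulc hB hφ (hms.mono hBΩ)) (FF_sm hB H1 N n)
    rw [show ((∫ z, (((φ z * m z : ℝ)) : ℂ) * FF a h u N n z).re) =
      ∫ z, ((((φ z * m z : ℝ)) : ℂ) * FF a h u N n z).re from (integral_re i1).symm]
    congr 1; funext z
    simp only [mul_re, ofReal_re, ofReal_im]
    ring
  rw [eJ] at D
  rw [Real.dist_eq] at ev1
  obtain ⟨J, hJ⟩ : ∃ J : ℝ, J = (∫ z, (((φ z * m z : ℝ)) : ℂ) * FF a h u N n z).re := ⟨_, rfl⟩
  obtain ⟨Q, hQ⟩ : ∃ Q : ℝ, Q = ∫ z, φ z * ‖FF a h u N n z‖ ^ 2 := ⟨_, rfl⟩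
  rw [← hV, ← hv, ← hJ, ← hg', ← hQ] at D
  rw [← hJ] at ev1
  rw [← hQ] at hCF
  rw [← hv, ← hE] at var
  rw [← hg'] at Gg
  rw [← hV, ← hE]
  have g'0 : 0 ≤ g' := by rw [hg']; exact measureReal_nonneg
  have iA : Integrable (fun z => φ z * m z ^ 2) :=
    Pool.Agent.W311.RW.int_mul hB hφ ((hms.continuousOn.mono hBΩ).pow 2)
  have VA : V ≤ A := by
    rw [hV, hA]
    exact setIntegral_le_integral iA (ae_of_all _ fun z => mul_nonneg (hφ0 z) (sq_nonneg _))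
  have V0 : 0 ≤ V := by
    rw [hV]; exact integral_nonneg fun z => mul_nonneg (hφ0 z) (sq_nonneg _)
  have Q0 : 0 ≤ Q := by
    rw [hQ]; exact integral_nonneg fun z => mul_nonneg (hφ0 z) (sq_nonneg _)
  -- the errors
  have c0 : (A - V) * v ≤ (A - V) * (2 / 3 * E) + ε / 6 := by
    have h1 := mul_le_mul_of_nonneg_left var (sub_nonneg.2 VA)
    have h2 : (A - V) * (ε / (6 * (A + 1))) ≤ ε / 6 := by
      have h3 : (A - V) * (ε / (6 * (A + 1))) ≤ (A + 1) * (ε / (6 * (A + 1))) :=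
        mul_le_mul_of_nonneg_right (by linarith) (by positivity)
      refine h3.trans (le_of_eq ?_)
      have : A + 1 ≠ 0 := by positivity
      field_simp
    linarith
  have c1 : A * (M * κ * U) ≤ ε / 48 := by
    rw [hκ]
    have h1 : A * (M * (ε / (48 * (A + 1) * (M + 1) * (U + 1))) * U) =
        ε / 48 * ((A / (A + 1)) * (M / (M + 1)) * (U / (U + 1))) := by field_simp
    rw [h1]
    refine mul_le_of_le_one_right (by positivity) ?_
    have a1 : A / (A + 1) ≤ 1 := by rw [div_le_one (by positivity)]; linarith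
    have a2 : M / (M + 1) ≤ 1 := by rw [div_le_one (by positivity)]; linarith
    have a3 : U / (U + 1) ≤ 1 := by rw [div_le_one (by positivity)]; linarith
    have b1 : 0 ≤ A / (A + 1) := by positivity
    have b2 : 0 ≤ M / (M + 1) := by positivity
    have b3 : 0 ≤ U / (U + 1) := by positivity
    exact mul_le_one₀ (mul_le_one₀ a1 b2 a2) b3 a3
  have c2 : A * (M ^ 2 * g' * (1 + 1 / t)) ≤ ε / 12 := by
    have h0 : A * (M ^ 2 * g' * (1 + 1 / t)) ≤ A * (M ^ 2 * g * (1 + 1 / t)) := by gcongr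
    refine h0.trans ?_
    rw [hg]
    obtain ⟨τ, hτ⟩ : ∃ τ : ℝ, τ = 1 + 1 / t := ⟨_, rfl⟩
    have τ0 : 0 < τ := by rw [hτ]; positivity
    rw [← hτ]
    have h1 : A * (M ^ 2 * (ε / (12 * (A + 1) * (M ^ 2 + 1) * τ)) * τ) =
        ε / 12 * ((A / (A + 1)) * (M ^ 2 / (M ^ 2 + 1))) := by field_simp
    rw [h1]
    refine mul_le_of_le_one_right (by positivity) ?_
    have a1 : A / (A + 1) ≤ 1 := by rw [div_le_one (by positivity)]; linarith
    have a2 : M ^ 2 / (M ^ 2 + 1) ≤ 1 := by rw [div_le_one (by positivity)]; linarith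
    exact mul_le_one₀ a1 (by positivity) a2
  have c3 : A * (t * Q) ≤ ε / 12 := by
    have h0 : A * (t * Q) ≤ A * (t * CF) := by gcongr
    refine h0.trans ?_
    rw [ht]
    have h1 : A * (ε / (12 * (A + 1) * (CF + 1)) * CF) =
        ε / 12 * ((A / (A + 1)) * (CF / (CF + 1))) := by field_simp
    rw [h1]
    refine mul_le_of_le_one_right (by positivity) ?_
    have a1 : A / (A + 1) ≤ 1 := by rw [div_le_one (by positivity)]; linarith
    have a2 : CF / (CF + 1) ≤ 1 := by rw [div_le_one (by positivity)]; linarith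
    exact mul_le_one₀ a1 (by positivity) a2
  have c4 : A * |J - A| ≤ ε / 24 := by
    have h0 : A * |J - A| ≤ A * (ε / (24 * (A + 1))) := mul_le_mul_of_nonneg_left ev1.le A0
    refine h0.trans ?_
    have h1 : A * (ε / (24 * (A + 1))) = ε / 24 * (A / (A + 1)) := by field_simp
    rw [h1]
    refine mul_le_of_le_one_right (by positivity) ?_
    rw [div_le_one (by positivity)]; linarith
  have c5 : A * (2 * M * κ * U + M ^ 2 * g') + 2 * A * (|J - A| + M * κ * U +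
      M ^ 2 / (2 * t) * g' + t / 2 * Q) = 4 * (A * (M * κ * U)) +
      A * (M ^ 2 * g' * (1 + 1 / t)) + A * (t * Q) + 2 * (A * |J - A|) := by
    field_simp
    ring
  have c6 : A * V ≤ (A - V) * v + (4 * (A * (M * κ * U)) +
      A * (M ^ 2 * g' * (1 + 1 / t)) + A * (t * Q) + 2 * (A * |J - A|)) := by
    rw [← c5]; linarith
  linarith

end

end Pool.Agent.P8H31.NZ
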