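import Pool.Agent.P8H31.NZ.Van
import Pool.Agent.Results.MP_a52643_an.PositiveDensity

/-!
Project NZ (helper31): limit laws.
-/

set_option autoImplicit false
open MeasureTheory Filter Topology Complex
open scoped ContDiff ENNReal

namespace Pool.Agent.P8H31.NZ

open Pool.Agent.W745.RW Pool.Agent.TH294.RS Pool.Agent.TH294.RG
open Pool.Agent.Results.MP_a52643_an.AbsoluteContinuity

noncomputable section

/-- the set of the points of `Ω` where `|f| ≤ δ` -/
def near (Ω : Set ℂ) (f : ℂ → ℝ) (δ : ℝ) : Set ℂ := {z | z ∈ Ω ∧ |f z| ≤ δ}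

lemma near_meas {Ω : Set ℂ} (hΩ : IsOpen Ω) {f : ℂ → ℝ} (hf : ContinuousOn f Ω) (δ : ℝ) :
    MeasurableSet (near Ω f δ) := by
  have h1 : IsOpen (Ω ∩ (fun z => |f z|) ⁻¹' Set.Ioi δ) :=
    hf.abs.isOpen_inter_preimage hΩ isOpen_Ioi
  have h2 : near Ω f δ = Ω \ (Ω ∩ (fun z => |f z|) ⁻¹' Set.Ioi δ) := by
    ext z
    simp only [near, Set.mem_diff, Set.mem_inter_iff, Set.mem_preimage, Set.mem_Ioi,
      Set.mem_setOf_eq, not_and, not_lt]
    constructor
    · rintro ⟨h3, h4⟩; exact ⟨h3, fun _ => h4⟩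
    · rintro ⟨h3, h4⟩; exact ⟨h3, h4 h3⟩
  rw [h2]
  exact hΩ.measurableSet.diff h1.measurableSet

lemma near_Sub {Ω : Set ℂ} (hΩ : IsOpen Ω) {f : ℂ → ℝ} (hf : ContinuousOn f Ω) (δ : ℝ)
    {φ : ℂ → ℝ} (hφ : tsupport φ ⊆ Ω) (g : ℂ → ℝ) :
    ∫ z in near Ω f δ, φ z * g z = ∫ z in Sub φ (fun z => |f z| ≤ δ), φ z * g z := by
  refine (setIntegral_eq_of_subset_of_forall_diff_eq_zero (near_meas hΩ hf δ)
    (fun z hz => ⟨hφ hz.1, hz.2⟩) fun z hz => ?_)
  have h1 : z ∉ tsupport φ := fun h => hz.2 ⟨h, hz.1.2⟩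
  rw [image_eq_zero_of_notMem_tsupport h1, zero_mul]

/-- the tent function -/
def tent (δ : ℝ) (x : ℝ) : ℝ := max 0 (1 - |x| / δ)

lemma tent_co (δ : ℝ) : Continuous (tent δ) := by
  unfold tent; fun_prop

lemma tent_zero {δ : ℝ} (hδ : 0 < δ) {x : ℝ} (hx : δ ≤ |x|) : tent δ x = 0 := by
  unfold tent
  have : 1 ≤ |x| / δ := by rw [le_div_iff₀ hδ]; linarith
  exact max_eq_left (by linarith)

lemma tent_nn (δ x : ℝ) : 0 ≤ tent δ x := le_max_left _ _

lemma tent_le {δ : ℝ} (hδ : 0 < δ) (x : ℝ) : tent δ x ≤ 1 := by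
  unfold tent
  have : 0 ≤ |x| / δ := by positivity
  exact max_le zero_le_one (by linarith)

lemma tent_cs {δ : ℝ} (hδ : 0 < δ) : HasCompactSupport (tent δ) := by
  refine HasCompactSupport.intro (isCompact_Icc (a := -δ) (b := δ)) fun x hx => ?_
  refine tent_zero hδ ?_
  by_contra hc
  exact hx (abs_le.1 (not_le.1 hc).le)

/-- the atom of a limit law is at most the mass of the set where the solutions are small -/
lemma atom_le {Ω : Set ℂ} (hΩ : IsOpen Ω) {ρ : ℂ → ℝ} (hρ : ContinuousOn ρ Ω)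
    (hρ0 : ∀ z ∈ Ω, 0 < ρ z) {u : ℕ → ℂ → ℝ} (hu : ∀ n, ContinuousOn (u n) Ω) {φ : ℂ → ℝ}
    (hφ : TF Ω φ) (hφ0 : ∀ z, 0 ≤ φ z) {ν : Measure ℝ} [IsFiniteMeasure ν] {σ : ℕ → ℕ}
    (hg : ∀ g : ℝ → ℝ, Continuous g → HasCompactSupport g →
      Tendsto (fun n => ∫ z, φ z * (g (u (σ n) z) * ρ z)) atTop (𝓝 (∫ x, g x ∂ν)))
    {δ ε : ℝ} (hδ : 0 < δ) (hε : 0 < ε) :
    ∀ᶠ n in atTop, ν.real {0} - ε ≤ ∫ z in near Ω (u (σ n)) δ, φ z * ρ z := by
  have h1 := hg (tent δ) (tent_co δ) (tent_cs hδ)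
  have i0 : Integrable (tent δ) ν := (tent_co δ).integrable_of_hasCompactSupport (tent_cs hδ)
  have h2 : ν.real {0} ≤ ∫ x, tent δ x ∂ν := by
    have e1 : ν.real {0} = ∫ x in ({0} : Set ℝ), tent δ x ∂ν := by
      have : ∀ x ∈ ({0} : Set ℝ), tent δ x = 1 := by
        intro x hx
        rw [Set.mem_singleton_iff.1 hx]
        simp [tent]
      rw [setIntegral_congr_fun (measurableSet_singleton 0) this, setIntegral_const, smul_eq_mul,
        mul_one]
    rw [e1]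
    exact setIntegral_le_integral i0 (ae_of_all _ fun x => tent_nn δ x)
  have h3 := h1.eventually (lt_mem_nhds (show ν.real {0} - ε < ∫ x, tent δ x ∂ν by linarith))
  refine h3.mono fun n hn => hn.le.trans ?_
  have hcρ : ContinuousOn (fun z => φ z * ρ z) (tsupport φ) :=
    hφ.1.continuous.continuousOn.mul (hρ.mono hφ.2.2)
  have iρ : Integrable (fun z => φ z * ρ z) :=
    Pool.Agent.W311.RW.int_mul hΩ hφ hρ
  have iT : Integrable (fun z => φ z * (tent δ (u (σ n) z) * ρ z)) :=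
    Pool.Agent.W311.RW.int_mul hΩ hφ (((tent_co δ).comp_continuousOn (hu _)).mul hρ)
  rw [← integral_indicator (near_meas hΩ (hu _) δ)]
  refine integral_mono iT (iρ.indicator (near_meas hΩ (hu _) δ)) fun z => ?_
  by_cases hz : z ∈ near Ω (u (σ n)) δ
  · rw [Set.indicator_of_mem hz]
    have h4 := tent_le hδ (u (σ n) z)
    have h5 := mul_nonneg (hφ0 z) (hρ0 z hz.1).le
    show φ z * (tent δ (u (σ n) z) * ρ z) ≤ φ z * ρ z
    nlinarith
  · rw [Set.indicator_of_notMem hz]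
    by_cases hzΩ : z ∈ Ω
    · have h4 : δ < |u (σ n) z| := by
        by_contra hc
        exact hz ⟨hzΩ, not_lt.1 hc⟩
      show φ z * (tent δ (u (σ n) z) * ρ z) ≤ 0
      rw [tent_zero hδ h4.le]
      simp
    · show φ z * (tent δ (u (σ n) z) * ρ z) ≤ 0
      rw [TF.zero hφ hzΩ, zero_mul]

/-- a cut-off function on the line -/
def flat (R : ℝ) (x : ℝ) : ℝ := min 1 (max 0 (2 - |x| / R))

lemma flat_co (R : ℝ) : Continuous (flat R) := by
  unfold flat; fun_prop

lemma flat_nn (R x : ℝ) : 0 ≤ flat R x := le_min zero_le_one (le_max_left _ _)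
lemma flat_le (R x : ℝ) : flat R x ≤ 1 := min_le_left _ _

lemma flat_one {R : ℝ} (hR : 0 < R) {x : ℝ} (hx : |x| ≤ R) : flat R x = 1 := by
  unfold flat
  have : |x| / R ≤ 1 := by rw [div_le_one hR]; exact hx
  refine min_eq_left ?_
  exact le_trans (by linarith) (le_max_right _ _)

lemma flat_cs {R : ℝ} (hR : 0 < R) : HasCompactSupport (flat R) := by
  refine HasCompactSupport.intro (isCompact_Icc (a := -(2 * R)) (b := 2 * R)) fun x hx => ?_
  have h1 : 2 * R < |x| := by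
    by_contra hc
    exact hx (abs_le.1 (not_lt.1 hc))
  unfold flat
  have : 2 ≤ |x| / R := by rw [le_div_iff₀ hR]; exact h1.le
  rw [max_eq_left (by linarith)]
  exact min_eq_right zero_le_one

/-- limit laws lose no mass -/
lemma total {Ω : Set ℂ} (hΩ : IsOpen Ω) {ρ : ℂ → ℝ} (hρ : ContinuousOn ρ Ω)
    (hρ0 : ∀ z ∈ Ω, 0 < ρ z) {u : ℕ → ℂ → ℝ} (hu : ∀ n, ContinuousOn (u n) Ω) {φ : ℂ → ℝ}
    (hφ : TF Ω φ) (hφ0 : ∀ z, 0 ≤ φ z) {ν : Measure ℝ} [IsFiniteMeasure ν] {σ : ℕ → ℕ}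
    (hσ : StrictMono σ)
    (hg : ∀ g : ℝ → ℝ, Continuous g → HasCompactSupport g →
      Tendsto (fun n => ∫ z, φ z * (g (u (σ n) z) * ρ z)) atTop (𝓝 (∫ x, g x ∂ν)))
    {C : ℝ} (hC : ∀ᶠ n in atTop, ∫ z, φ z * (ρ z * u n z ^ 2) ≤ C) :
    ν.real Set.univ = ∫ z, φ z * ρ z := by
  have iρ : Integrable (fun z => φ z * ρ z) := Pool.Agent.W311.RW.int_mul hΩ hφ hρ
  have iF : ∀ R n, Integrable (fun z => φ z * (flat R (u n z) * ρ z)) := fun R n =>
    Pool.Agent.W311.RW.int_mul hΩ hφ (((flat_co R).comp_continuousOn (hu _)).mul hρ)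
  have iS : ∀ n, Integrable (fun z => φ z * (ρ z * u n z ^ 2)) := fun n =>
    Pool.Agent.W311.RW.int_mul hΩ hφ (hρ.mul ((hu n).pow 2))
  have pp : ∀ z, 0 ≤ φ z * ρ z := fun z => by
    by_cases hz : z ∈ Ω
    · exact mul_nonneg (hφ0 z) (hρ0 z hz).le
    · rw [TF.zero hφ hz, zero_mul]
  have up : ∀ R : ℝ, 0 < R → ∫ x, flat R x ∂ν ≤ ∫ z, φ z * ρ z := by
    intro R hR
    refine le_of_tendsto' (hg (flat R) (flat_co R) (flat_cs hR)) fun n => ?_
    refine integral_mono (iF R _) iρ fun z => ?_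
    have h1 := flat_le R (u (σ n) z)
    have h2 := pp z
    show φ z * (flat R (u (σ n) z) * ρ z) ≤ φ z * ρ z
    nlinarith
  have lo : ∀ R : ℝ, 0 < R → (∫ z, φ z * ρ z) - C / R ^ 2 ≤ ∫ x, flat R x ∂ν := by
    intro R hR
    refine ge_of_tendsto (hg (flat R) (flat_co R) (flat_cs hR)) ?_
    refine (hσ.tendsto_atTop.eventually hC).mono fun n hn => ?_
    have h1 : (∫ z, φ z * ρ z) - (∫ z, φ z * (ρ z * u (σ n) z ^ 2)) / R ^ 2 ≤
        ∫ z, φ z * (flat R (u (σ n) z) * ρ z) := by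
      rw [← integral_div, ← integral_sub iρ ((iS _).div_const _)]
      refine integral_mono (iρ.sub ((iS _).div_const _)) (iF R _) fun z => ?_
      show φ z * ρ z - φ z * (ρ z * u (σ n) z ^ 2) / R ^ 2 ≤ φ z * (flat R (u (σ n) z) * ρ z)
      have h2 := pp z
      by_cases h3 : |u (σ n) z| ≤ R
      · rw [flat_one hR h3, one_mul]
        have : 0 ≤ φ z * (ρ z * u (σ n) z ^ 2) / R ^ 2 := by
          rw [← mul_assoc]; positivity
        linarith
      · have h4 := flat_nn R (u (σ n) z)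
        have h5 : R ^ 2 ≤ u (σ n) z ^ 2 := by
          rw [← sq_abs (u (σ n) z)]
          exact pow_le_pow_left₀ hR.le (not_le.1 h3).le 2
        have h6 : φ z * ρ z ≤ φ z * (ρ z * u (σ n) z ^ 2) / R ^ 2 := by
          rw [le_div_iff₀ (by positivity), ← mul_assoc]
          exact mul_le_mul_of_nonneg_left h5 h2
        have h7 : 0 ≤ φ z * (flat R (u (σ n) z) * ρ z) := by
          have := mul_nonneg h2 h4
          linarith
        linarith
    have h2 : (∫ z, φ z * (ρ z * u (σ n) z ^ 2)) / R ^ 2 ≤ C / R ^ 2 := by gcongr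
    linarith
  have iν : ∀ R : ℝ, 0 < R → Integrable (flat R) ν := fun R hR =>
    (flat_co R).integrable_of_hasCompactSupport (flat_cs hR)
  refine le_antisymm ?_ ?_
  · -- upper bound
    have h1 : Tendsto (fun n : ℕ => ν.real (Set.Icc (-(n : ℝ)) n)) atTop (𝓝 (ν.real Set.univ)) := by
      have h2 : Monotone fun n : ℕ => Set.Icc (-(n : ℝ)) n := by
        intro a b hab
        have : (a : ℝ) ≤ b := by exact_mod_cast hab
        exact Set.Icc_subset_Icc (by linarith) this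
      have h3 : ⋃ n : ℕ, Set.Icc (-(n : ℝ)) n = Set.univ := by
        ext x
        simp only [Set.mem_iUnion, Set.mem_univ, iff_true]
        obtain ⟨n, hn⟩ := exists_nat_ge |x|
        exact ⟨n, abs_le.1 hn⟩
      have h4 := tendsto_measure_iUnion_atTop (μ := ν) h2
      rw [h3] at h4
      exact (ENNReal.tendsto_toReal (measure_ne_top ν _)).comp h4
    refine le_of_tendsto h1 ?_
    filter_upwards [eventually_gt_atTop 0] with n hn
    have hn' : (0 : ℝ) < n := by exact_mod_cast hn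
    refine le_trans ?_ (up n hn')
    have e1 : ν.real (Set.Icc (-(n : ℝ)) n) = ∫ x in Set.Icc (-(n : ℝ)) n, flat n x ∂ν := by
      rw [setIntegral_congr_fun measurableSet_Icc fun x hx => flat_one hn' (abs_le.2 hx),
        setIntegral_const, smul_eq_mul, mul_one]
    rw [e1]
    exact setIntegral_le_integral (iν n hn') (ae_of_all _ fun x => flat_nn _ x)
  · -- lower bound
    have h1 : Tendsto (fun R : ℝ => (∫ z, φ z * ρ z) - C / R ^ 2) atTop
        (𝓝 ((∫ z, φ z * ρ z) - 0)) := by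
      refine tendsto_const_nhds.sub ?_
      exact tendsto_const_nhds.div_atTop (tendsto_pow_atTop two_ne_zero)
    rw [sub_zero] at h1
    refine le_of_tendsto h1 ?_
    filter_upwards [eventually_gt_atTop 0] with R hR
    refine (lo R hR).trans ?_
    have e1 : ν.real Set.univ = ∫ _x : ℝ, (1 : ℝ) ∂ν := by simp
    rw [e1]
    exact integral_mono (iν R hR) (integrable_const _) fun x => flat_le R x

end

end Pool.Agent.P8H31.NZ
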