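import Pool.Agent.P8H31.NZ.Fin

/-!
Project NZ (helper31): the set where a solution is small, and the fourth moment; general sequences.
-/

set_option autoImplicit false
open MeasureTheory Filter Topology Complex ProbabilityTheory
open scoped ContDiff ENNReal

namespace Pool.Agent.P8H31.NZ

open Pool.Agent.W745.RW Pool.Agent.TH294.RS Pool.Agent.TH294.RG Pool.Agent.TH421.DF
open Pool.Agent.TH421.AC

noncomputable section

variable {m : ℂ → ℝ} {ν : Kernel ℂ ℝ}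

/-- **The set where the solutions are small and the fourth moment.** -/
theorem vanish [IsMarkovKernel ν] {Ω : Set ℂ}
    (hm : ∀ K : Set ℂ, IsCompact K → K ⊆ Ω → MemLp m 2 (volume.restrict K))
    (hms : ContDiffOn ℝ ∞ m Ω)
    (hp : ∀ᵐ z ∂(volume.restrict Ω), par ea (ν z) = 0) {a : ℂ → ℝ} {h : ℕ → ℝ} {u : ℕ → ℂ → ℝ}
    (H : RawG Ω a h u (MM m ea ν)) {K : Set ℂ} (hK : IsCompact K) (hKΩ : K ⊆ Ω)
    {φ : ℂ → ℝ} (hφ : TF (interior K) φ) (hφ0 : ∀ z, 0 ≤ φ z) {ε : ℝ} (hε : 0 < ε) :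
    ∃ δ : ℝ, 0 < δ ∧ ∀ᶠ n in atTop, ∀ Z : Set ℂ, MeasurableSet Z →
      Z ⊆ Sub φ (fun z => |u n z| ≤ δ) →
      3 / 2 * ((∫ z, φ z * m z ^ 2) * ∫ z in Z, φ z * m z ^ 2) ≤
        ((∫ z, φ z * m z ^ 2) - ∫ z in Z, φ z * m z ^ 2) *
          ((∫ z, φ z * u n z ^ 4) - 3 * ∫ z, φ z * m z ^ 2) +
            ε * (1 + ∫ z in K, u n z ^ 4) := by
  have hB : IsOpen (interior K) := isOpen_interior
  have hBΩ : interior K ⊆ Ω := interior_subset.trans hKΩ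
  obtain ⟨A, hA⟩ : ∃ A : ℝ, A = ∫ z, φ z * m z ^ 2 := ⟨_, rfl⟩
  have A0 : 0 ≤ A := by
    rw [hA]; exact integral_nonneg fun z => mul_nonneg (hφ0 z) (sq_nonneg _)
  have iA : Integrable (fun z => φ z * m z ^ 2) :=
    Pool.Agent.W311.RW.int_mul hB hφ ((hms.continuousOn.mono hBΩ).pow 2)
  have VA : ∀ Z : Set ℂ, ∫ z in Z, φ z * m z ^ 2 ≤ A := fun Z => by
    rw [hA]
    exact setIntegral_le_integral iA (ae_of_all _ fun z => mul_nonneg (hφ0 z) (sq_nonneg _))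
  have V0 : ∀ Z : Set ℂ, 0 ≤ ∫ z in Z, φ z * m z ^ 2 := fun Z =>
    integral_nonneg fun z => mul_nonneg (hφ0 z) (sq_nonneg _)
  have T0 : ∀ n, 0 ≤ ∫ z in K, u n z ^ 4 := fun n => integral_nonneg fun z => by positivity
  rw [← hA]
  by_contra hcon
  have h1 : ∀ j : ℕ, ∃ᶠ n in atTop, ¬ ∀ Z : Set ℂ, MeasurableSet Z →
      Z ⊆ Sub φ (fun z => |u n z| ≤ 1 / ((j : ℝ) + 1)) →
      3 / 2 * (A * ∫ z in Z, φ z * m z ^ 2) ≤
        (A - ∫ z in Z, φ z * m z ^ 2) *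
          ((∫ z, φ z * u n z ^ 4) - 3 * A) + ε * (1 + ∫ z in K, u n z ^ 4) := by
    intro j
    by_contra hj
    rw [not_frequently] at hj
    apply hcon
    exact ⟨1 / ((j : ℝ) + 1), by positivity, hj.mono fun n hn => not_not.1 hn⟩
  obtain ⟨ψ, hψ, hP⟩ := extraction_forall_of_frequently h1
  -- the fourth moments are bounded along the subsequence
  have ev1 := exc_low hm hp H hK hKΩ hφ hφ0 (show 0 < ε / (2 * (A + 1)) by positivity)
  have ev2 := hψ.tendsto_atTop.eventually ev1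
  have hT : ∀ᶠ j in atTop, ∫ z in K, u (ψ j) z ^ 4 ≤ 3 * A ^ 2 / ε := by
    refine ev2.mono fun j hj => ?_
    by_contra hc
    apply hP j
    intro Z _ _
    rw [← hA] at hj
    obtain ⟨V, hV⟩ : ∃ V : ℝ, V = ∫ z in Z, φ z * m z ^ 2 := ⟨_, rfl⟩
    have a1 := VA Z
    have a2 := V0 Z
    rw [← hV] at a1 a2 ⊢
    obtain ⟨E, hE⟩ : ∃ E : ℝ, E = (∫ z, φ z * u (ψ j) z ^ 4) - 3 * A := ⟨_, rfl⟩
    obtain ⟨T, hT⟩ : ∃ T : ℝ, T = ∫ z in K, u (ψ j) z ^ 4 := ⟨_, rfl⟩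
    rw [← hE, ← hT] at hj ⊢
    have hc' : 3 * A ^ 2 / ε < T := by rw [hT]; exact not_le.1 hc
    rw [div_lt_iff₀ hε] at hc'
    have T0' : 0 ≤ T := by rw [hT]; exact T0 _
    have h2 := mul_le_mul_of_nonneg_left hj (sub_nonneg.2 a1)
    rw [mul_zero] at h2
    have h3 : (A - V) * (ε / (2 * (A + 1)) * (1 + T)) ≤ ε / 2 * (1 + T) := by
      have h4 : (A - V) * (ε / (2 * (A + 1)) * (1 + T)) ≤
          (A + 1) * (ε / (2 * (A + 1)) * (1 + T)) :=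
        mul_le_mul_of_nonneg_right (by linarith) (by positivity)
      refine h4.trans (le_of_eq ?_)
      have : A + 1 ≠ 0 := by positivity
      field_simp
    have h5 : A * V ≤ A ^ 2 := by rw [sq]; exact mul_le_mul_of_nonneg_left a1 A0
    nlinarith
  have H' := H.sub (le_refl Ω) hψ
  obtain ⟨δ, δ0, hδ⟩ := vanish_b hm hms hp H' hK hKΩ hφ hφ0 hT hε
  have inv0 : Tendsto (fun n : ℕ => 1 / ((n : ℝ) + 1)) atTop (𝓝 0) :=
    tendsto_one_div_add_atTop_nhds_zero_nat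
  obtain ⟨j, hj1, hj2⟩ := (hδ.and (inv0.eventually (gt_mem_nhds δ0))).exists
  apply hP j
  intro Z mZ hZ
  have h6 := hj1 Z mZ (hZ.trans fun z hz => ⟨hz.1, hz.2.trans hj2.le⟩)
  rw [← hA] at h6
  refine h6.trans ?_
  have h7 : ε ≤ ε * (1 + ∫ z in K, u (ψ j) z ^ 4) := by
    have := T0 (ψ j)
    nlinarith
  linarith

end

end Pool.Agent.P8H31.NZ
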